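import Pool.Agent.Q225.Add.Rank
import Pool.Agent.W956.KF.Sizes

set_option autoImplicit false
set_option linter.unusedSectionVars false

/-!
# Circuits use additions
-/

namespace Pool.Agent.Q225.Add

open MvPolynomial Pool.Agent.H522R2 Pool.Agent.H522R2.Circuit Pool.Agent.W956.KF

variable {F : Type} [Field F] {m : ℕ}

theorem Mon.mono {K : Type} [Field K] {S T : Set K} (h : S ⊆ T) {x : K} (hx : Mon S x) :
    Mon T x := by
  induction hx with
  | of x hx => exact .of x (h hx)
  | mul x y _ _ h1 h2 => exact .mul x y h1 h2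
  | div x y _ _ h1 h2 => exact .div x y h1 h2

theorem Una.mono {K : Type} [Field K] [Algebra F K] {S T : Set K} (h : S ⊆ T) :
    Una F S ⊆ Una F T := by
  rintro y ⟨x, hx, p, q, rfl⟩
  exact ⟨x, h hx, p, q, rfl⟩

theorem algebraMap_entryMM (i k : Fin m) :
    algebraMap (MvPolynomial (Vr m) F) (Rf F m) (entryMM F m i k) = ent F m i k := by
  simp only [entryMM, ent, gz, map_sum, map_mul]

theorem const_mem_alone (c : F) : algebraMap (MvPolynomial (Vr m) F) (Rf F m) (C c) ∈
    Alone F m := by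
  left
  have : algebraMap (MvPolynomial (Vr m) F) (Rf F m) (C c) = algebraMap F (Rf F m) c := by
    rw [IsScalarTower.algebraMap_apply F (MvPolynomial (Vr m) F) (Rf F m)]
    rfl
  rw [this]
  exact (IntermediateField.adjoin F _).algebraMap_mem c

theorem var_mem_alone (x : Vr m) : algebraMap (MvPolynomial (Vr m) F) (Rf F m) (X x) ∈
    Alone F m := by
  rcases x with x | y
  · exact Or.inl (IntermediateField.subset_adjoin F _ ⟨x, rfl⟩)
  · exact Or.inr (IntermediateField.subset_adjoin F _ ⟨y, rfl⟩)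

/-- polynomials in one group of variables -/
theorem poly_mem_alone {p : MvPolynomial (Vr m) F}
    (hp : ¬ ((∃ x, Sum.inl x ∈ p.vars) ∧ ∃ y, Sum.inr y ∈ p.vars)) :
    algebraMap (MvPolynomial (Vr m) F) (Rf F m) p ∈ Alone F m := by
  classical
  have gen : ∀ (T : Set (Vr m)) (L : IntermediateField F (Rf F m)),
      (∀ x ∈ T, gz F (Vr m) x ∈ L) → (p.vars : Set (Vr m)) ⊆ T →
      algebraMap (MvPolynomial (Vr m) F) (Rf F m) p ∈ L := by
    intro T L hT hv
    have h1 : p ∈ supported F T := mem_supported.2 hv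
    rw [supported] at h1
    refine Algebra.adjoin_induction (p := fun p _ => algebraMap _ (Rf F m) p ∈ L)
      ?_ ?_ ?_ ?_ h1
    · rintro _ ⟨x, hx, rfl⟩
      exact hT x hx
    · intro c
      rw [← IsScalarTower.algebraMap_apply]
      exact L.algebraMap_mem c
    · intro a b _ _ ha hb
      rw [map_add]
      exact L.add_mem ha hb
    · intro a b _ _ ha hb
      rw [map_mul]
      exact L.mul_mem ha hb
  rw [not_and_or] at hp
  rcases hp with h | h
  · right
    refine gen (Set.range Sum.inr) _ ?_ ?_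
    · rintro _ ⟨y, rfl⟩
      exact IntermediateField.subset_adjoin F _ ⟨y, rfl⟩
    · intro z hz
      rcases z with x | y
      · exact absurd ⟨x, hz⟩ h
      · exact ⟨y, rfl⟩
  · left
    refine gen (Set.range Sum.inl) _ ?_ ?_
    · rintro _ ⟨y, rfl⟩
      exact IntermediateField.subset_adjoin F _ ⟨y, rfl⟩
    · intro z hz
      rcases z with x | y
      · exact ⟨x, rfl⟩
      · exact absurd ⟨y, hz⟩ h

/-- the mixed addition gates -/
def IsMixed (C : Circuit F (Vr m)) (k : Fin C.nodes) : Prop :=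
  (∃ i j, C.gate k = Gate.add i j) ∧ (∃ x, Sum.inl x ∈ (C.poly k).vars) ∧
    ∃ y, Sum.inr y ∈ (C.poly k).vars

theorem freeProducts_of_circuit (C : Circuit F (Vr m)) (hC : ComputesMM C) :
    FreeProducts F m (mixedAdds C) := by
  classical
  set S : Finset (Fin C.nodes) := Finset.univ.filter (IsMixed C) with hS
  have hSm : ∀ k, k ∈ S ↔ IsMixed C k := by
    intro k
    rw [hS, Finset.mem_filter]
    exact ⟨fun h => h.2, fun h => ⟨Finset.mem_univ _, h⟩⟩
  have hcard : S.card = mixedAdds C := (Nat.subtype_card S hSm).symm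
  set val : Fin C.nodes → Rf F m := fun k => algebraMap _ (Rf F m) (C.poly k) with hval
  let e : Fin (mixedAdds C) ↪o Fin C.nodes := S.orderEmbOfFin hcard
  have he : ∀ k, IsMixed C k → ∃ t, e t = k := by
    intro k hk
    have : k ∈ Set.range e := by
      rw [Finset.range_orderEmbOfFin]
      exact (hSm k).2 hk
    exact this
  -- all values
  have key : ∀ k : Fin C.nodes,
      Mon (Alone F m ∪ {z | ∃ t, e t ≤ k ∧ z = val (e t)}) (val k) := by
    intro k
    obtain ⟨k, hk⟩ := k
    induction k using Nat.strong_induction_on with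
    | _ k ih =>
      by_cases hmix : IsMixed C ⟨k, hk⟩
      · obtain ⟨t, ht⟩ := he _ hmix
        refine .of _ (Or.inr ⟨t, ht.le, by rw [ht]⟩)
      · cases h : C.gate ⟨k, hk⟩ with
        | var x =>
          refine .of _ (Or.inl ?_)
          simp only [hval]
          rw [poly, h]
          exact var_mem_alone x
        | const c =>
          refine .of _ (Or.inl ?_)
          simp only [hval]
          rw [poly, h]
          exact const_mem_alone c
        | add i j =>
          refine .of _ (Or.inl (poly_mem_alone fun h' => hmix ⟨⟨i, j, h⟩, h'⟩))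
        | mul i j =>
          have e1 : val ⟨k, hk⟩ = val (C.up ⟨k, hk⟩ i) * val (C.up ⟨k, hk⟩ j) := by
            simp only [hval]
            rw [poly, h]
            simp only [map_mul]
          rw [e1]
          refine .mul _ _ ((ih i i.2 (i.2.trans hk)).mono ?_) ((ih j j.2 (j.2.trans hk)).mono ?_)
          · refine Set.union_subset_union_right _ ?_
            rintro z ⟨t, ht, rfl⟩
            exact ⟨t, ht.trans (Fin.mk_le_mk.2 i.2.le), rfl⟩
          · refine Set.union_subset_union_right _ ?_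
            rintro z ⟨t, ht, rfl⟩
            exact ⟨t, ht.trans (Fin.mk_le_mk.2 j.2.le), rfl⟩
  refine ⟨fun t => val (e t), fun t => ?_, fun i k => ?_⟩
  · have hm : IsMixed C (e t) := (hSm _).1 (Finset.orderEmbOfFin_mem S hcard t)
    obtain ⟨⟨i, j, hij⟩, -⟩ := hm
    refine ⟨val (C.up (e t) i), val (C.up (e t) j), (key _).mono ?_, (key _).mono ?_, ?_⟩
    · refine Set.union_subset_union_right _ ?_
      rintro z ⟨t', ht', rfl⟩
      refine ⟨t', ?_, rfl⟩
      rw [← e.lt_iff_lt]
      exact lt_of_le_of_lt ht' (Fin.lt_def.2 i.2)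
    · refine Set.union_subset_union_right _ ?_
      rintro z ⟨t', ht', rfl⟩
      refine ⟨t', ?_, rfl⟩
      rw [← e.lt_iff_lt]
      exact lt_of_le_of_lt ht' (Fin.lt_def.2 j.2)
    · simp only [hval]
      rw [poly, hij]
      simp only [map_add]
  · obtain ⟨k', hk'⟩ := hC i k
    have := (key k').mono (T := Alone F m ∪ Set.range fun t => val (e t)) (by
      refine Set.union_subset_union_right _ ?_
      rintro z ⟨t, -, rfl⟩
      exact ⟨t, rfl⟩)
    have e2 : val k' = ent F m i k := by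
      simp only [hval]
      rw [hk', algebraMap_entryMM]
    rwa [e2] at this

theorem mixedAdds_le_size (C : Circuit F (Vr m)) : mixedAdds C ≤ C.size := by
  unfold mixedAdds size
  refine Nat.card_le_card_of_injective (fun k => ⟨k.1, Or.inl k.2.1⟩) ?_
  intro a b h
  have h' := congrArg Subtype.val h
  exact Subtype.ext h'

/-! ### unary functions -/

/-- a sequence of additions -/
def RunU (F : Type) [Field F] (m : ℕ) {s : ℕ} (h : Fin s → Rf F m) : Prop :=
  ∀ t, ∃ u v, u ∈ Una F (Alone F m ∪ {z | ∃ t' < t, z = h t'}) ∧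
      v ∈ Una F (Alone F m ∪ {z | ∃ t' < t, z = h t'}) ∧ h t = u + v

theorem RunU.snoc {s : ℕ} {h : Fin s → Rf F m} (hr : RunU F m h) {u v : Rf F m}
    (hu : u ∈ Una F (Alone F m ∪ Set.range h)) (hv : v ∈ Una F (Alone F m ∪ Set.range h)) :
    RunU F m (Fin.snoc h (u + v) : Fin (s + 1) → Rf F m) := by
  intro t
  refine Fin.lastCases ?_ (fun t => ?_) t
  · refine ⟨u, v, Una.mono ?_ hu, Una.mono ?_ hv, by simp⟩ <;>
    · refine Set.union_subset_union_right _ ?_
      rintro z ⟨t', rfl⟩
      exact ⟨t'.castSucc, Fin.castSucc_lt_last t', by simp⟩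
  · obtain ⟨u', v', h1, h2, h3⟩ := hr t
    refine ⟨u', v', Una.mono ?_ h1, Una.mono ?_ h2, by simpa using h3⟩ <;>
    · refine Set.union_subset_union_right _ ?_
      rintro z ⟨t', ht', rfl⟩
      exact ⟨t'.castSucc, Fin.castSucc_lt_castSucc_iff.2 ht', by simp⟩

theorem range_snoc_subset {s : ℕ} (h : Fin s → Rf F m) (x : Rf F m) :
    Set.range h ⊆ Set.range (Fin.snoc h x : Fin (s + 1) → Rf F m) := by
  rintro _ ⟨t, rfl⟩
  exact ⟨t.castSucc, by simp⟩

theorem mem_range_snoc {s : ℕ} (h : Fin s → Rf F m) (x : Rf F m) :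
    x ∈ Set.range (Fin.snoc h x : Fin (s + 1) → Rf F m) := ⟨Fin.last _, by simp⟩

theorem mem_una {K : Type} [Field K] [Algebra F K] {S : Set K} {x : K} (hx : x ∈ S) :
    x ∈ Una F S := ⟨x, hx, Polynomial.X, 1, by simp⟩

theorem neg_sq_mem_una {K : Type} [Field K] [Algebra F K] {S : Set K} {x : K}
    (hx : x ∈ Una F S) : -(x ^ 2) ∈ Una F S := by
  obtain ⟨z, hz, p, q, rfl⟩ := hx
  refine ⟨z, hz, -(p ^ 2), q ^ 2, ?_⟩
  simp only [map_neg, map_pow, div_pow, neg_div]

theorem sq_mem_una {K : Type} [Field K] [Algebra F K] {S : Set K} {x : K}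
    (hx : x ∈ S) : x ^ 2 ∈ Una F S := ⟨x, hx, Polynomial.X ^ 2, 1, by simp⟩

theorem half_mem_una (h2 : (2 : F) ≠ 0) {K : Type} [Field K] [Algebra F K] {S : Set K} {x : K}
    (hx : x ∈ S) : x / 2 ∈ Una F S :=
  ⟨x, hx, Polynomial.X, Polynomial.C 2, by simp [map_ofNat]⟩

theorem freeUnary_of_reach (h2 : (2 : F) ≠ 0) {s : ℕ} {T : Set (MvPolynomial (Vr m) F)}
    (h : Reach (inputs F (Vr m)) s T) : ∃ h : Fin (3 * s) → Rf F m, RunU F m h ∧
      ∀ z ∈ T, algebraMap _ (Rf F m) z ∈ Una F (Alone F m ∪ Set.range h) := by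
  have h2' : (2 : Rf F m) ≠ 0 := by
    have : algebraMap F (Rf F m) 2 ≠ 0 := by
      rw [Ne, map_eq_zero]
      exact h2
    rwa [map_ofNat] at this
  induction h with
  | refl =>
    refine ⟨fun t => 0, fun t => absurd t.2 (by simp), ?_⟩
    rintro z (⟨x, rfl⟩ | ⟨c, rfl⟩)
    · exact mem_una (Or.inl (var_mem_alone x))
    · exact mem_una (Or.inl (const_mem_alone c))
  | @add s T x y _ hx hy ih =>
    obtain ⟨h, hr, hT⟩ := ih
    have r1 := hr.snoc (hT x hx) (hT y hy)
    set w := algebraMap _ (Rf F m) x + algebraMap _ (Rf F m) y with hw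
    have w1 : w ∈ Alone F m ∪ Set.range (Fin.snoc h w : Fin (3 * s + 1) → Rf F m) :=
      Or.inr (mem_range_snoc _ _)
    have r2 := r1.snoc (mem_una (F := F) w1) (mem_una (F := F) w1)
    have w2 := Set.union_subset_union_right (Alone F m)
      (range_snoc_subset (Fin.snoc h w : Fin (3 * s + 1) → Rf F m) (w + w)) w1
    have r3 := r2.snoc (mem_una (F := F) w2) (mem_una (F := F) w2)
    refine ⟨_, r3, ?_⟩
    have hsub : Set.range h ⊆ Set.range (Fin.snoc (Fin.snoc (Fin.snoc h w :
        Fin (3 * s + 1) → Rf F m) (w + w) : Fin (3 * s + 1 + 1) → Rf F m) (w + w) :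
        Fin (3 * s + 1 + 1 + 1) → Rf F m) :=
      (range_snoc_subset _ _).trans ((range_snoc_subset _ _).trans (range_snoc_subset _ _))
    rintro z (rfl | hz)
    · rw [map_add, ← hw]
      exact mem_una (Or.inr (range_snoc_subset _ _ (range_snoc_subset _ _
        (mem_range_snoc _ _))))
    · exact Una.mono (Set.union_subset_union_right _ hsub) (hT z hz)
  | @mul s T x y _ hx hy ih =>
    obtain ⟨h, hr, hT⟩ := ih
    set u := algebraMap _ (Rf F m) x with hu
    set v := algebraMap _ (Rf F m) y with hv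
    have r1 := hr.snoc (hT x hx) (hT y hy)
    have s1 : Alone F m ∪ Set.range h ⊆ Alone F m ∪
        Set.range (Fin.snoc h (u + v) : Fin (3 * s + 1) → Rf F m) :=
      Set.union_subset_union_right _ (range_snoc_subset _ _)
    have r2 := r1.snoc (u := (u + v) ^ 2) (v := -(u ^ 2))
      (sq_mem_una (Or.inr (mem_range_snoc _ _)))
      (Una.mono s1 (neg_sq_mem_una (hT x hx)))
    have s2 := Set.union_subset_union_right (Alone F m) (range_snoc_subset
      (Fin.snoc h (u + v) : Fin (3 * s + 1) → Rf F m) ((u + v) ^ 2 + -(u ^ 2)))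
    have r3 := r2.snoc (u := (u + v) ^ 2 + -(u ^ 2)) (v := -(v ^ 2))
      (mem_una (Or.inr (mem_range_snoc _ _)))
      (Una.mono (s1.trans s2) (neg_sq_mem_una (hT y hy)))
    refine ⟨_, r3, ?_⟩
    have hsub : Set.range h ⊆ Set.range (Fin.snoc (Fin.snoc (Fin.snoc h (u + v) :
        Fin (3 * s + 1) → Rf F m) ((u + v) ^ 2 + -(u ^ 2)) : Fin (3 * s + 1 + 1) → Rf F m)
        ((u + v) ^ 2 + -(u ^ 2) + -(v ^ 2)) :
        Fin (3 * s + 1 + 1 + 1) → Rf F m) :=
      (range_snoc_subset _ _).trans ((range_snoc_subset _ _).trans (range_snoc_subset _ _))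
    rintro z (rfl | hz)
    · have e : algebraMap _ (Rf F m) (x * y) = ((u + v) ^ 2 + -(u ^ 2) + -(v ^ 2)) / 2 := by
        rw [map_mul, ← hu, ← hv]
        field_simp
        ring
      rw [e]
      exact half_mem_una h2 (Or.inr (mem_range_snoc _ _))
    · exact Una.mono (Set.union_subset_union_right _ hsub) (hT z hz)

theorem freeUnary_sizeMM (h2 : (2 : F) ≠ 0) (m : ℕ) : ∃ s ≤ 3 * sizeMM F m, FreeUnary F m s := by
  obtain ⟨s, hs, T, h1, h3⟩ := cost_MM_sizeMM F m
  obtain ⟨h, hr, hT⟩ := freeUnary_of_reach h2 h1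
  refine ⟨3 * s, by omega, h, hr, fun i k => ?_⟩
  rw [← algebraMap_entryMM]
  exact hT _ (h3 ⟨(i, k), rfl⟩)

theorem freeProducts_sizeMM (F : Type) [Field F] (m : ℕ) :
    ∃ s ≤ sizeMM F m, FreeProducts F m s := by
  obtain ⟨C, h1, h3⟩ := exists_circuit_MM F m
  exact ⟨mixedAdds C, (mixedAdds_le_size C).trans h3.le, freeProducts_of_circuit C h1⟩

end Pool.Agent.Q225.Add
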