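import Pool.Agent.W956.KF.RatFun

set_option autoImplicit false
set_option linter.unusedSectionVars false

/-!
# Second derivatives of quantities that are computed with few additions
-/

namespace Pool.Agent.Q225.Add

open MvPolynomial Pool.Agent.W956.KF Pool.Agent.H53R3

/-- the partial derivatives on the field of rational functions; constants have derivative zero -/
theorem exists_der (F : Type) [Field F] (σ : Type) [DecidableEq σ] (i : σ) :
    ∃ D : FractionRing (MvPolynomial σ F) → FractionRing (MvPolynomial σ F), IsDer D ∧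
      (∀ c : F, D (algebraMap F _ c) = 0) ∧
      ∀ j, D (gz F σ j) = if j = i then 1 else 0 := by
  have hφ : ∀ x, (psi (gz_indep (F := F) (σ := σ)) i x).fst = x := fun x => by
    rw [fst_psi, evz_gz]
  refine ⟨fun x => (psi (gz_indep (F := F) (σ := σ)) i x).snd, ⟨fun a b => ?_, fun a b => ?_⟩,
    fun c => ?_, fun j => ?_⟩
  · simp only [map_add, TrivSqZeroExt.snd_add]
  · simp only [map_mul, TrivSqZeroExt.snd_mul, hφ, smul_eq_mul, MulOpposite.smul_eq_mul_unop,
      MulOpposite.unop_op]
    ring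
  · beta_reduce
    rw [IsScalarTower.algebraMap_apply F (MvPolynomial σ F) (FractionRing (MvPolynomial σ F)),
      psi_algebraMap]
    have : algebraMap F (MvPolynomial σ F) c = C c := rfl
    rw [this]
    simp [psi0]
  · simp only [gz]
    rw [psi_algebraMap]
    by_cases h : j = i <;> simp [psi0, h]

section abstract

variable {K : Type*} [Field K] {X Y : Type*}

theorem der_inv {D : K → K} (h : IsDer D) {x : K} (hx : x ≠ 0) : D x⁻¹ = -(D x) / x ^ 2 := by
  have h1 : D (x * x⁻¹) = D x * x⁻¹ + x * D x⁻¹ := h.mul _ _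
  rw [mul_inv_cancel₀ hx, h.one] at h1
  have h2 : x * D x⁻¹ = -(D x * x⁻¹) := by linear_combination -h1
  have h3 : D x⁻¹ = x⁻¹ * (x * D x⁻¹) := by rw [← mul_assoc, inv_mul_cancel₀ hx, one_mul]
  rw [h3, h2]
  field_simp

theorem der_div {D : K → K} (h : IsDer D) {x y : K} (hy : y ≠ 0) :
    D (x / y) = (D x * y - x * D y) / y ^ 2 := by
  rw [div_eq_mul_inv, h.mul, der_inv h hy]
  field_simp
  ring

theorem der_div_div {D : K → K} (h : IsDer D) {x y : K} (hx : x ≠ 0) (hy : y ≠ 0) :
    D (x / y) / (x / y) = D x / x - D y / y := by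
  rw [der_div h hy]
  field_simp

theorem der_mul_div {D : K → K} (h : IsDer D) {x y : K} (hx : x ≠ 0) (hy : y ≠ 0) :
    D (x * y) / (x * y) = D x / x + D y / y := by
  rw [h.mul]
  field_simp

variable (dA : X → K → K) (dB : Y → K → K)

/-- the product of the two gradients of `f` -/
def gg (f : K) : X × Y → K := fun z => dA z.1 f * dB z.2 f

/-- the mixed second derivatives of `f` -/
def hh (f : K) : X × Y → K := fun z => dA z.1 (dB z.2 f)

/-- the mixed second derivatives of the logarithm of `f` -/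
def ll (f : K) : X × Y → K := fun z => dA z.1 (dB z.2 f / f)

/-- depends on one of the two groups of variables only -/
def Pure (f : K) : Prop := (∀ y, dB y f = 0) ∨ ∀ x, dA x f = 0 ∧ ∀ y, dA x (dB y f) = 0

variable {dA dB} (hA : ∀ x, IsDer (dA x)) (hB : ∀ y, IsDer (dB y))

include hA hB

theorem Pure.gg_eq {f : K} (h : Pure dA dB f) : gg dA dB f = 0 := by
  funext z
  rcases h with h | h
  · simp [gg, h]
  · simp [gg, (h z.1).1]

theorem Pure.hh_eq {f : K} (h : Pure dA dB f) : hh dA dB f = 0 := by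
  funext z
  rcases h with h | h
  · simp [hh, h, (hA z.1).zero]
  · simp [hh, (h z.1).2]

theorem Pure.ll_eq {f : K} (h : Pure dA dB f) : ll dA dB f = 0 := by
  funext z
  rcases h with h | h
  · simp [ll, h, (hA z.1).zero]
  · rcases eq_or_ne f 0 with hf | hf
    · simp [ll, hf, (hA z.1).zero]
    · simp [ll, der_div (hA z.1) hf, (h z.1).1, (h z.1).2]

theorem ll_mul {f g : K} (hf : f ≠ 0) (hg : g ≠ 0) :
    ll dA dB (f * g) = ll dA dB f + ll dA dB g := by
  funext z
  simp only [ll, Pi.add_apply, der_mul_div (hB z.2) hf hg, (hA z.1).add]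

theorem ll_div {f g : K} (hf : f ≠ 0) (hg : g ≠ 0) :
    ll dA dB (f / g) = ll dA dB f - ll dA dB g := by
  funext z
  simp only [ll, Pi.sub_apply, der_div_div (hB z.2) hf hg, (hA z.1).sub]

theorem ll_zero : ll dA dB 0 = 0 := by
  funext z
  simp [ll, (hA z.1).zero]

theorem hh_zero : hh dA dB 0 = 0 := by
  funext z
  simp [hh, (hA z.1).zero, (hB z.2).zero]

/-- the second derivatives, from the logarithmic ones -/
theorem hh_eq (f : K) : hh dA dB f = f • ll dA dB f + f⁻¹ • gg dA dB f := by
  rcases eq_or_ne f 0 with hf | hf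
  · subst hf
    rw [hh_zero hA hB]
    simp
  · funext z
    simp only [hh, ll, gg, Pi.add_apply, Pi.smul_apply, smul_eq_mul, der_div (hA z.1) hf]
    field_simp
    ring

theorem hh_add (f g : K) : hh dA dB (f + g) = hh dA dB f + hh dA dB g := by
  funext z
  simp only [hh, Pi.add_apply, (hB z.2).add, (hA z.1).add]

/-- the logarithmic second derivatives of a sum -/
theorem ll_add_mem {W : Submodule K (X × Y → K)} {u v : K} (hu : ll dA dB u ∈ W)
    (hv : ll dA dB v ∈ W) (gu : gg dA dB u ∈ W) (gv : gg dA dB v ∈ W)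
    (gs : gg dA dB (u + v) ∈ W) : ll dA dB (u + v) ∈ W := by
  rcases eq_or_ne (u + v) 0 with h | h
  · rw [h, ll_zero hA hB]
    exact W.zero_mem
  · have h1 : hh dA dB (u + v) ∈ W := by
      rw [hh_add hA hB, hh_eq hA hB u, hh_eq hA hB v]
      exact W.add_mem (W.add_mem (W.smul_mem _ hu) (W.smul_mem _ gu))
        (W.add_mem (W.smul_mem _ hv) (W.smul_mem _ gv))
    have h2 : ll dA dB (u + v) = (u + v)⁻¹ • (hh dA dB (u + v) -
        (u + v)⁻¹ • gg dA dB (u + v)) := by
      rw [hh_eq hA hB (u + v), add_sub_cancel_right, smul_smul, inv_mul_cancel₀ h, one_smul]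
    rw [h2]
    exact W.smul_mem _ (W.sub_mem h1 (W.smul_mem _ gs))

/-- products and quotients are free -/
theorem ll_mul_mem {W : Submodule K (X × Y → K)} {u v : K} (hu : ll dA dB u ∈ W)
    (hv : ll dA dB v ∈ W) : ll dA dB (u * v) ∈ W := by
  rcases eq_or_ne u 0 with h | h
  · rw [h, zero_mul, ll_zero hA hB]; exact W.zero_mem
  rcases eq_or_ne v 0 with h' | h'
  · rw [h', mul_zero, ll_zero hA hB]; exact W.zero_mem
  rw [ll_mul hA hB h h']
  exact W.add_mem hu hv

theorem ll_div_mem {W : Submodule K (X × Y → K)} {u v : K} (hu : ll dA dB u ∈ W)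
    (hv : ll dA dB v ∈ W) : ll dA dB (u / v) ∈ W := by
  rcases eq_or_ne u 0 with h | h
  · rw [h, zero_div, ll_zero hA hB]; exact W.zero_mem
  rcases eq_or_ne v 0 with h' | h'
  · rw [h', div_zero, ll_zero hA hB]; exact W.zero_mem
  rw [ll_div hA hB h h']
  exact W.sub_mem hu hv

end abstract

end Pool.Agent.Q225.Add
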