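import Pool.Agent.W956.KF.RatFun

set_option autoImplicit false

/-!
# Additive complexity of matrix multiplication: definitions
-/

namespace Pool.Agent.Q225.Add

open MvPolynomial Pool.Agent.H522R2 Pool.Agent.W956.KF

/-- The entries of two generic `m × m` matrices: `inl (i, j)` is the entry `a_{ij}` of the first,
`inr (j, k)` the entry `b_{jk}` of the second matrix. -/
abbrev Vr (m : ℕ) : Type := (Fin m × Fin m) ⊕ (Fin m × Fin m)

/-- The field of rational functions over `F` in the entries of two generic `m × m` matrices. -/
abbrev Rf (F : Type) [Field F] (m : ℕ) : Type := FractionRing (MvPolynomial (Vr m) F)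

/-- The entry `∑ j, a_{ij} b_{jk}` of the product of the two matrices. -/
noncomputable def ent (F : Type) [Field F] (m : ℕ) (i k : Fin m) : Rf F m :=
  ∑ j, gz F (Vr m) (Sum.inl (i, j)) * gz F (Vr m) (Sum.inr (j, k))

/-- The rational functions which depend on the first matrix alone, and those which depend on the
second matrix alone. -/
def Alone (F : Type) [Field F] (m : ℕ) : Set (Rf F m) :=
  (IntermediateField.adjoin F (Set.range fun x => gz F (Vr m) (Sum.inl x)) : Set (Rf F m)) ∪
  (IntermediateField.adjoin F (Set.range fun y => gz F (Vr m) (Sum.inr y)) : Set (Rf F m))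

/-- What can be obtained from the elements of `S` by multiplications and divisions. -/
inductive Mon {K : Type} [Field K] (S : Set K) : K → Prop
  | of (x : K) : x ∈ S → Mon S x
  | mul (x y : K) : Mon S x → Mon S y → Mon S (x * y)
  | div (x y : K) : Mon S x → Mon S y → Mon S (x / y)

/-- The elements `φ x` where `x` is an element of `S` and `φ` a rational function of one variable
over `F`. -/
def Una (F : Type) [Field F] {K : Type} [Field K] [Algebra F K] (S : Set K) : Set K :=
  {y | ∃ x ∈ S, ∃ p q : Polynomial F, y = Polynomial.aeval x p / Polynomial.aeval x q}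

/-- `s` additions suffice for the product of two generic `m × m` matrices if all multiplications and
divisions, and all functions of one of the two matrices, are free: `h 0, …, h (s-1)` are the results
of the additions. -/
def FreeProducts (F : Type) [Field F] (m s : ℕ) : Prop :=
  ∃ h : Fin s → Rf F m,
    (∀ t, ∃ u v, Mon (Alone F m ∪ {z | ∃ t' < t, z = h t'}) u ∧
      Mon (Alone F m ∪ {z | ∃ t' < t, z = h t'}) v ∧ h t = u + v) ∧
    ∀ i k, Mon (Alone F m ∪ Set.range h) (ent F m i k)

/-- `s` additions suffice for the product of two generic `m × m` matrices if all rational functions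
of one earlier result, and all functions of one of the two matrices, are free. -/
def FreeUnary (F : Type) [Field F] (m s : ℕ) : Prop :=
  ∃ h : Fin s → Rf F m,
    (∀ t, ∃ u v, u ∈ Una F (Alone F m ∪ {z | ∃ t' < t, z = h t'}) ∧
      v ∈ Una F (Alone F m ∪ {z | ∃ t' < t, z = h t'}) ∧ h t = u + v) ∧
    ∀ i k, ent F m i k ∈ Una F (Alone F m ∪ Set.range h)

/-- The least number of additions if multiplications and divisions are free. -/
noncomputable def addsP (F : Type) [Field F] (m : ℕ) : ℕ := sInf {s | FreeProducts F m s}

/-- The least number of additions if rational functions of one variable are free. -/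
noncomputable def addsU (F : Type) [Field F] (m : ℕ) : ℕ := sInf {s | FreeUnary F m s}

/-- The number of `+` gates of a circuit whose value depends on both matrices. -/
noncomputable def mixedAdds {F : Type} [Field F] {m : ℕ} (C : Circuit F (Vr m)) : ℕ :=
  Nat.card {k : Fin C.nodes // (∃ i j, C.gate k = Gate.add i j) ∧
    (∃ x, Sum.inl x ∈ (C.poly k).vars) ∧ ∃ y, Sum.inr y ∈ (C.poly k).vars}

/-- Superlinear growth as a function of `n = m ^ 2`, for `m ≥ 2`. -/
def SuperlinearTwo (f : ℕ → ℕ) : Prop :=
  ∃ α : ℝ, 1 < α ∧ ∃ c : ℝ, 0 < c ∧ ∀ m : ℕ, 2 ≤ m → c * (((m : ℝ) ^ 2) ^ α) ≤ f m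

end Pool.Agent.Q225.Add
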