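import Pool.Agent.Q225.Add.Circ
import Pool.Agent.W956.KF.Growth

set_option autoImplicit false
set_option linter.unusedSectionVars false

/-!
# Growth of the numbers of additions
-/

namespace Pool.Agent.Q225.Add

open MvPolynomial Filter Pool.Agent.H522R2 Pool.Agent.H522R2.Circuit Pool.Agent.W956.KF
open Pool.Agent.H53R3 Pool.Agent.H826R3.SM

section

variable {F : Type} [Field F] {m : ℕ}

theorem ent_not_alone (i k : Fin m) : ent F m i k ∉ Alone F m := by
  intro h
  obtain ⟨D, hD, hc, hv⟩ := exists_ders F m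
  have h1 := (alone_pure hD hc hv h).hh_eq (fun _ => hD _) (fun _ => hD _)
  have h2 := hh_ent hD hv i i i i k k
  rw [h1] at h2
  simp at h2

theorem ent_injective (i i' k k' : Fin m) (h : ent F m i k = ent F m i' k') :
    i = i' ∧ k = k' := by
  obtain ⟨D, hD, hc, hv⟩ := exists_ders F m
  have h1 := hh_ent hD hv i i i i k k
  have h2 := hh_ent hD hv i i' i i k k'
  rw [h, h2] at h1
  by_contra hcon
  rw [if_neg (fun h => hcon ⟨h.1, h.2.2⟩), if_pos ⟨rfl, rfl, rfl⟩] at h1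
  exact zero_ne_one h1

theorem sq_le_size (C : Circuit F (Vr m)) (hC : ComputesMM C) : m ^ 2 ≤ C.size := by
  classical
  choose v hv using hC
  have hg : ∀ i k, (∃ a b, C.gate (v i k) = Gate.add a b) ∨
      ∃ a b, C.gate (v i k) = Gate.mul a b := by
    intro i k
    cases h : C.gate (v i k) with
    | var x =>
      exfalso
      have h1 := hv i k
      rw [poly, h] at h1
      have h2 := algebraMap_entryMM (F := F) i k
      rw [← h1] at h2
      exact ent_not_alone i k (h2 ▸ var_mem_alone x)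
    | const c =>
      exfalso
      have h1 := hv i k
      rw [poly, h] at h1
      have h2 := algebraMap_entryMM (F := F) i k
      rw [← h1] at h2
      exact ent_not_alone i k (h2 ▸ const_mem_alone c)
    | add a b => exact Or.inl ⟨a, b, rfl⟩
    | mul a b => exact Or.inr ⟨a, b, rfl⟩
  have h1 : Nat.card (Fin m × Fin m) ≤ C.size := by
    unfold size
    refine Nat.card_le_card_of_injective (fun t => ⟨v t.1 t.2, hg t.1 t.2⟩) ?_
    intro a b h
    have h' := congrArg Subtype.val h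
    simp only at h'
    have h2 : ent F m a.1 a.2 = ent F m b.1 b.2 := by
      rw [← algebraMap_entryMM, ← algebraMap_entryMM, ← hv, ← hv, h']
    obtain ⟨e1, e2⟩ := ent_injective _ _ _ _ h2
    exact Prod.ext e1 e2
  simpa [pow_two] using h1

theorem addsP_le (F : Type) [Field F] (m : ℕ) : addsP F m ≤ sizeMM F m := by
  obtain ⟨s, hs, h⟩ := freeProducts_sizeMM F m
  exact (Nat.sInf_le h).trans hs

theorem freeProducts_addsP (F : Type) [Field F] (m : ℕ) : FreeProducts F m (addsP F m) := by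
  obtain ⟨s, _, h⟩ := freeProducts_sizeMM F m
  exact Nat.sInf_mem (s := {s | FreeProducts F m s}) ⟨s, h⟩

theorem addsU_le (h2 : (2 : F) ≠ 0) (m : ℕ) : addsU F m ≤ 3 * sizeMM F m := by
  obtain ⟨s, hs, h⟩ := freeUnary_sizeMM h2 m
  exact (Nat.sInf_le h).trans hs

theorem freeUnary_addsU (h2 : (2 : F) ≠ 0) (m : ℕ) : FreeUnary F m (addsU F m) := by
  obtain ⟨s, _, h⟩ := freeUnary_sizeMM h2 m
  exact Nat.sInf_mem (s := {s | FreeUnary F m s}) ⟨s, h⟩

theorem sq_le_sizeMM (F : Type) [Field F] (m : ℕ) : m ^ 2 ≤ sizeMM F m := by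
  obtain ⟨C, h1, h3⟩ := exists_circuit_MM F m
  rw [← h3]
  exact sq_le_size C h1

variable [Infinite F]

theorem trank_le_products {s : ℕ} (h : FreeProducts F m s) : trank F m m m ≤ 3 * s + m ^ 2 :=
  trank_le (rank_descend (rank_of_freeProducts h))

theorem trank_le_unary {s : ℕ} (h : FreeUnary F m s) : trank F m m m ≤ s :=
  trank_le (rank_descend (rank_of_freeUnary h))

theorem trank_le_size (F : Type) [Field F] [Infinite F] (m : ℕ) :
    trank F m m m ≤ 4 * sizeMM F m := by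
  have h1 := trank_le_products (freeProducts_addsP F m)
  have h2 := addsP_le F m
  have h3 := sq_le_sizeMM F m
  omega

theorem growth_sizeMM (F : Type) [Field F] [Infinite F] : growth (sizeMM F) = omega F := by
  rw [omega_eq]
  exact growth_eq (trank_le_size F) fun τ hτ => sizeMM_upper hτ

theorem superlinear_sizeMM (F : Type) [Field F] [Infinite F] :
    Superlinear (sizeMM F) ↔ 2 < omega F := by
  rw [omega_eq]
  exact superlinear_iff (by norm_num) (trank_le_size F) fun τ hτ => sizeMM_upper hτ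

theorem addsU_upper (h2 : (2 : F) ≠ 0) {τ : ℝ} (hτ : omegaMM F < τ) :
    ∃ D : ℝ, ∀ m : ℕ, (addsU F m : ℝ) ≤ D * (m : ℝ) ^ τ := by
  obtain ⟨D, hD⟩ := sizeMM_upper hτ
  refine ⟨3 * D, fun m => ?_⟩
  have h1 : (addsU F m : ℝ) ≤ 3 * (sizeMM F m : ℝ) := by exact_mod_cast addsU_le h2 m
  linarith [hD m]

theorem addsP_upper {τ : ℝ} (hτ : omegaMM F < τ) :
    ∃ D : ℝ, ∀ m : ℕ, (addsP F m : ℝ) ≤ D * (m : ℝ) ^ τ := by
  obtain ⟨D, hD⟩ := sizeMM_upper hτ
  refine ⟨D, fun m => ?_⟩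
  have h1 : (addsP F m : ℝ) ≤ (sizeMM F m : ℝ) := by exact_mod_cast addsP_le F m
  linarith [hD m]

theorem growth_addsU (h2 : (2 : F) ≠ 0) : growth (addsU F) = omega F := by
  rw [omega_eq]
  refine growth_eq (c := 1) (fun m => ?_) fun τ hτ => addsU_upper h2 hτ
  rw [one_mul]
  exact trank_le_unary (freeUnary_addsU h2 m)

theorem superlinear_addsU (h2 : (2 : F) ≠ 0) : Superlinear (addsU F) ↔ 2 < omega F := by
  rw [omega_eq]
  refine superlinear_iff (c := 1) one_pos (fun m => ?_) fun τ hτ => addsU_upper h2 hτ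
  rw [one_mul]
  exact trank_le_unary (freeUnary_addsU h2 m)

/-- the bound `(2 / 3 - ε) m ^ 2` -/
theorem addsP_eventually (ε : ℝ) (hε : 0 < ε) : ∃ m₀ : ℕ, ∀ (F : Type) [Field F] [Infinite F]
    (m : ℕ), m₀ ≤ m → (2 / 3 - ε) * (m : ℝ) ^ 2 ≤ addsP F m := by
  obtain ⟨m₀, h⟩ := trank_eventually (3 * ε) (by positivity)
  refine ⟨m₀, fun F _ _ m hm => ?_⟩
  have h1 := h F m hm
  have h2 : (trank F m m m : ℝ) ≤ 3 * addsP F m + (m : ℝ) ^ 2 := by
    exact_mod_cast trank_le_products (freeProducts_addsP F m)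
  nlinarith

/-- small exponents are impossible, even for infinitely many sizes -/
theorem two_le_of_infinite {τ D : ℝ} (h : {m : ℕ | (addsP F m : ℝ) ≤ D * (m : ℝ) ^ τ}.Infinite) :
    2 ≤ τ := by
  by_contra hcon
  push Not at hcon
  obtain ⟨m₀, h0⟩ := addsP_eventually (1 / 3) (by norm_num)
  have hlim : Tendsto (fun q : ℕ => (q : ℝ) ^ (2 - τ)) atTop atTop :=
    (tendsto_rpow_atTop (by linarith)).comp tendsto_natCast_atTop_atTop
  obtain ⟨N, hN⟩ := (hlim.eventually_gt_atTop (3 * D)).exists_forall_of_atTop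
  obtain ⟨m, hm, hmN⟩ := h.exists_gt (max N (max m₀ 1))
  have hm1 : 1 ≤ m := ((le_max_right _ _).trans (le_max_right _ _)).trans hmN.le
  have hm0 : (0 : ℝ) < m := by exact_mod_cast hm1
  have h1 := h0 F m (((le_max_left _ _).trans (le_max_right _ _)).trans hmN.le)
  have h2 : (addsP F m : ℝ) ≤ D * (m : ℝ) ^ τ := hm
  have h4 : (m : ℝ) ^ (2 - τ) * (m : ℝ) ^ τ = (m : ℝ) ^ 2 := by
    rw [← Real.rpow_add hm0, sub_add_cancel, Real.rpow_two]
  have h5 := hN m ((le_max_left _ _).trans hmN.le)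
  have h6 := mul_lt_mul_of_pos_right h5 (Real.rpow_pos_of_pos hm0 τ)
  rw [h4] at h6
  norm_num at h1
  linarith

/-- upper bounds for infinitely many sizes -/
theorem omega_le_addsP {τ D : ℝ} (h : {m : ℕ | (addsP F m : ℝ) ≤ D * (m : ℝ) ^ τ}.Infinite) :
    omega F ≤ τ := by
  have hτ := two_le_of_infinite h
  rw [omega_eq]
  refine omega_le_of_infinite (f := fun m => trank F m m m) (c := 1) (fun m => by simp)
    (τ := τ) (D := 3 * |D| + 1) ?_
  refine (h.sdiff (Set.finite_singleton 0)).mono ?_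
  rintro m ⟨hm, hm0⟩
  have hm1 : 1 ≤ m := Nat.one_le_iff_ne_zero.2 hm0
  have h1 : (1 : ℝ) ≤ m := by exact_mod_cast hm1
  have h2 : (trank F m m m : ℝ) ≤ 3 * addsP F m + (m : ℝ) ^ 2 := by
    exact_mod_cast trank_le_products (freeProducts_addsP F m)
  have h3 : (m : ℝ) ^ 2 ≤ (m : ℝ) ^ τ := by
    rw [← Real.rpow_two]
    exact Real.rpow_le_rpow_of_exponent_le h1 hτ
  have h4 : (addsP F m : ℝ) ≤ D * (m : ℝ) ^ τ := hm
  have h5 : 0 ≤ (m : ℝ) ^ τ := Real.rpow_nonneg (by linarith) _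
  have h6 : D * (m : ℝ) ^ τ ≤ |D| * (m : ℝ) ^ τ := mul_le_mul_of_nonneg_right (le_abs_self D) h5
  show (trank F m m m : ℝ) ≤ (3 * |D| + 1) * (m : ℝ) ^ τ
  nlinarith

theorem growth_addsP (F : Type) [Field F] [Infinite F] : growth (addsP F) = omega F := by
  have hlow : ∀ τ ∈ {τ : ℝ | ∃ D : ℝ, ∀ m : ℕ, (addsP F m : ℝ) ≤ D * (m : ℝ) ^ τ},
      omega F ≤ τ := by
    rintro τ ⟨D, hD⟩
    refine omega_le_addsP (D := D) ?_
    rw [show {m : ℕ | (addsP F m : ℝ) ≤ D * (m : ℝ) ^ τ} = Set.univ from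
      Set.eq_univ_of_forall hD]
    exact Set.infinite_univ
  have hup : ∀ τ, omega F < τ → ∃ D : ℝ, ∀ m : ℕ, (addsP F m : ℝ) ≤ D * (m : ℝ) ^ τ := by
    intro τ hτ
    rw [omega_eq] at hτ
    exact addsP_upper hτ
  apply le_antisymm
  · refine le_of_forall_pos_le_add fun ε hε => ?_
    exact csInf_le ⟨omega F, hlow⟩ (hup _ (by linarith))
  · refine le_csInf ?_ hlow
    exact ⟨_, hup _ (lt_add_one _)⟩

theorem superlinear_addsP (F : Type) [Field F] [Infinite F] :
    SuperlinearTwo (addsP F) ↔ 2 < omega F := by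
  constructor
  · rintro ⟨α, hα, a, ha, h⟩
    by_contra hcon
    push Not at hcon
    rw [omega_eq] at hcon
    obtain ⟨D, hD⟩ := addsP_upper (F := F) (τ := 1 + α) (by linarith)
    have hlim : Tendsto (fun q : ℕ => (q : ℝ) ^ (2 * α - (1 + α))) atTop atTop :=
      (tendsto_rpow_atTop (by linarith)).comp tendsto_natCast_atTop_atTop
    obtain ⟨m, hm1, hm2⟩ := ((hlim.eventually_gt_atTop (D / a)).and
      (eventually_ge_atTop 2)).exists
    have hm0 : (0 : ℝ) < m := by exact_mod_cast (by omega : 0 < m)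
    have h1 := (h m hm2).trans (hD m)
    have e1 : ((m : ℝ) ^ 2) ^ α = (m : ℝ) ^ (2 * α - (1 + α)) * (m : ℝ) ^ (1 + α) := by
      rw [← Real.rpow_add hm0, ← Real.rpow_natCast (m : ℝ) 2, ← Real.rpow_mul hm0.le]
      congr 1
      push_cast
      ring
    rw [e1] at h1
    have h2 : 0 < (m : ℝ) ^ (1 + α) := Real.rpow_pos_of_pos hm0 _
    have h3 : D < a * (m : ℝ) ^ (2 * α - (1 + α)) := by
      rw [div_lt_iff₀ ha] at hm1
      linarith
    have h4 := mul_lt_mul_of_pos_right h3 h2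
    linarith [mul_assoc a ((m : ℝ) ^ (2 * α - (1 + α))) ((m : ℝ) ^ (1 + α))]
  · intro h
    set w := omega F with hw
    have hlt : (2 : ℝ) ^ (2 - w) < 1 :=
      Real.rpow_lt_one_of_one_lt_of_neg (by norm_num) (by linarith)
    refine ⟨w / 2, by linarith, (1 - (2 : ℝ) ^ (2 - w)) / 3, by linarith, fun m hm => ?_⟩
    have hm0 : (0 : ℝ) < m := by exact_mod_cast (by omega : 0 < m)
    have hm2 : (2 : ℝ) ≤ m := by exact_mod_cast hm
    have e1 : ((m : ℝ) ^ 2) ^ (w / 2) = (m : ℝ) ^ w := by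
      rw [← Real.rpow_natCast (m : ℝ) 2, ← Real.rpow_mul hm0.le]
      congr 1
      push_cast
      ring
    have h1 : (m : ℝ) ^ w ≤ trank F m m m := by
      rw [hw, omega_eq]
      exact rpow_omega_le F m (by omega)
    have h2 : (trank F m m m : ℝ) ≤ 3 * addsP F m + (m : ℝ) ^ 2 := by
      exact_mod_cast trank_le_products (freeProducts_addsP F m)
    have h3 : (m : ℝ) ^ 2 = (m : ℝ) ^ (2 - w) * (m : ℝ) ^ w := by
      rw [← Real.rpow_add hm0, sub_add_cancel, Real.rpow_two]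
    have h4 : (m : ℝ) ^ (2 - w) ≤ (2 : ℝ) ^ (2 - w) :=
      Real.rpow_le_rpow_of_nonpos (by norm_num) hm2 (by linarith)
    have h5 : 0 < (m : ℝ) ^ w := Real.rpow_pos_of_pos hm0 _
    rw [e1]
    have h6 := mul_le_mul_of_nonneg_right h4 h5.le
    nlinarith

end

end Pool.Agent.Q225.Add
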