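import Pool.Agent.Q225.Add.Defs

set_option autoImplicit false

/-!
# Additive complexity of rational functions: definitions
-/

namespace Pool.Agent.Q225.Add

open MvPolynomial Pool.Agent.W956.KF

/-- The field of rational functions over `F` in the variables `V`. -/
abbrev Rt (F : Type) [Field F] (V : Type) : Type := FractionRing (MvPolynomial V F)

/-- The constants and the variables. -/
def Given (F : Type) [Field F] (V : Type) : Set (Rt F V) :=
  Set.range (algebraMap F (Rt F V)) ∪ Set.range (gz F V)

/-- The elements of `Z` can be computed with `s` additions if all multiplications and divisions are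
free: `h 0, …, h (s-1)` are the results of the additions. -/
def CompP (F : Type) [Field F] (V : Type) (Z : Set (Rt F V)) (s : ℕ) : Prop :=
  ∃ h : Fin s → Rt F V,
    (∀ t, ∃ u v, Mon (Given F V ∪ {z | ∃ t' < t, z = h t'}) u ∧
      Mon (Given F V ∪ {z | ∃ t' < t, z = h t'}) v ∧ h t = u + v) ∧
    ∀ z ∈ Z, Mon (Given F V ∪ Set.range h) z

/-- The elements of `Z` can be computed with `s` additions if all rational functions of one earlier
result are free. -/
def CompU (F : Type) [Field F] (V : Type) (Z : Set (Rt F V)) (s : ℕ) : Prop :=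
  ∃ h : Fin s → Rt F V,
    (∀ t, ∃ u v, u ∈ Una F (Given F V ∪ {z | ∃ t' < t, z = h t'}) ∧
      v ∈ Una F (Given F V ∪ {z | ∃ t' < t, z = h t'}) ∧ h t = u + v) ∧
    ∀ z ∈ Z, z ∈ Una F (Given F V ∪ Set.range h)

/-- The least number of additions for `Z` if multiplications and divisions are free. -/
noncomputable def addP (F : Type) [Field F] (V : Type) (Z : Set (Rt F V)) : ℕ :=
  sInf {s | CompP F V Z s}

/-- The least number of additions for `Z` if rational functions of one variable are free. -/
noncomputable def addU (F : Type) [Field F] (V : Type) (Z : Set (Rt F V)) : ℕ :=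
  sInf {s | CompU F V Z s}

/-- The generic `n × n` matrix. -/
noncomputable def gen (F : Type) [Field F] (n : ℕ) :
    Matrix (Fin n) (Fin n) (Rt F (Fin n × Fin n)) :=
  Matrix.of fun i j => gz F (Fin n × Fin n) (i, j)

/-- The determinant of the generic `n × n` matrix. -/
def detSet (F : Type) [Field F] (n : ℕ) : Set (Rt F (Fin n × Fin n)) := {(gen F n).det}

/-- The entries of the inverse of the generic `n × n` matrix. -/
def invSet (F : Type) [Field F] (n : ℕ) : Set (Rt F (Fin n × Fin n)) :=
  Set.range fun t : Fin n × Fin n => (gen F n)⁻¹ t.1 t.2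

/-- The trilinear form `tr (A B C) = ∑ a_{ij} b_{jk} c_{ki}` of three generic `n × n` matrices; the
variables are `(0, i, j)` for `a_{ij}`, `(1, j, k)` for `b_{jk}` and `(2, k, i)` for `c_{ki}`. -/
noncomputable def traceSet (F : Type) [Field F] (n : ℕ) : Set (Rt F (Fin 3 × Fin n × Fin n)) :=
  {∑ i, ∑ j, ∑ k, gz F (Fin 3 × Fin n × Fin n) (0, i, j) * gz F (Fin 3 × Fin n × Fin n) (1, j, k) *
    gz F (Fin 3 × Fin n × Fin n) (2, k, i)}

/-- `f` is a sum of at most `r` tensors of rank one. -/
def TensorRankLE {K I J L : Type} [Field K] (f : I → J → L → K) (r : ℕ) : Prop :=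
  ∃ (x : Fin r → I → K) (y : Fin r → J → K) (z : Fin r → L → K),
    ∀ i j l, f i j l = ∑ t, x t i * y t j * z t l

end Pool.Agent.Q225.Add
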