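import Pool.Agent.Q225.Add.RunUp

set_option autoImplicit false
set_option linter.unusedSectionVars false

/-!
# Growth of the numbers of additions for the determinant, the inverse and the trace form
-/

namespace Pool.Agent.Q225.Add

open MvPolynomial Filter Pool.Agent.H522R2 Pool.Agent.H522R2.Circuit Pool.Agent.W956.KF
open Pool.Agent.H826R3.SM

section mins

variable {F : Type} [Field F] {V : Type} {Z : Set (Rt F V)} {s : ℕ}

theorem addP_le (h : ∃ s' ≤ s, CompP F V Z s') : addP F V Z ≤ s := by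
  obtain ⟨s', hs, h⟩ := h
  exact (Nat.sInf_le h).trans hs

theorem compP_addP (h : ∃ s, CompP F V Z s) : CompP F V Z (addP F V Z) :=
  Nat.sInf_mem (s := {s | CompP F V Z s}) h

theorem addU_le (h : ∃ s' ≤ s, CompU F V Z s') : addU F V Z ≤ s := by
  obtain ⟨s', hs, h⟩ := h
  exact (Nat.sInf_le h).trans hs

theorem compU_addU (h : ∃ s, CompU F V Z s) : CompU F V Z (addU F V Z) :=
  Nat.sInf_mem (s := {s | CompU F V Z s}) h

end mins

section exist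

variable (F : Type) [Field F]

theorem exists_inv_det (n : ℕ) : ∃ T', ReachLe (Given F (Fin n × Fin n)) (invCost F (Nat.clog 2 n)) T'
    ∧ (∀ z ∈ invSet F n, z ∈ T') ∧ ∀ z ∈ detSet F n, z ∈ T' :=
  reach_gen F (Nat.le_pow_clog (by norm_num) n)

theorem compP_inv (n : ℕ) : ∃ s ≤ invCost F (Nat.clog 2 n), CompP F _ (invSet F n) s := by
  obtain ⟨T, h1, h2, _⟩ := exists_inv_det F n
  exact compP_of_reach h1 h2

theorem compP_det (n : ℕ) : ∃ s ≤ invCost F (Nat.clog 2 n), CompP F _ (detSet F n) s := by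
  obtain ⟨T, h1, _, h2⟩ := exists_inv_det F n
  exact compP_of_reach h1 h2

theorem compU_inv (h2 : (2 : F) ≠ 0) (n : ℕ) :
    ∃ s ≤ 3 * invCost F (Nat.clog 2 n), CompU F _ (invSet F n) s := by
  obtain ⟨T, h1, h3, _⟩ := exists_inv_det F n
  exact compU_of_reach h2 h1 h3

theorem compU_det (h2 : (2 : F) ≠ 0) (n : ℕ) :
    ∃ s ≤ 3 * invCost F (Nat.clog 2 n), CompU F _ (detSet F n) s := by
  obtain ⟨T, h1, _, h3⟩ := exists_inv_det F n
  exact compU_of_reach h2 h1 h3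

theorem compP_trace (n : ℕ) : ∃ s ≤ sizeMM F n + 2 * n ^ 2, CompP F _ (traceSet F n) s := by
  obtain ⟨T, h1, h2⟩ := reach_trace F n
  exact compP_of_reach h1 h2

theorem compU_trace (h2 : (2 : F) ≠ 0) (n : ℕ) :
    ∃ s ≤ 3 * (sizeMM F n + 2 * n ^ 2), CompU F _ (traceSet F n) s := by
  obtain ⟨T, h1, h3⟩ := reach_trace F n
  exact compU_of_reach h2 h1 h3

/-- computations without additions -/
theorem compP_zero {V : Type} {Z : Set (Rt F V)} (h : ∀ z ∈ Z, z ∈ Given F V) :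
    CompP F V Z 0 := ⟨fun t => t.elim0, fun t => t.elim0, fun z hz => .of _ (Or.inl (h z hz))⟩

theorem compU_zero {V : Type} {Z : Set (Rt F V)} (h : ∀ z ∈ Z, z ∈ Given F V) :
    CompU F V Z 0 := ⟨fun t => t.elim0, fun t => t.elim0, fun z hz => mem_una (Or.inl (h z hz))⟩

theorem inv_zero_given : ∀ z ∈ invSet F 0, z ∈ Given F (Fin 0 × Fin 0) := by
  rintro _ ⟨⟨i, _⟩, rfl⟩
  exact i.elim0

theorem det_zero_given : ∀ z ∈ detSet F 0, z ∈ Given F (Fin 0 × Fin 0) := by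
  rintro _ rfl
  rw [Matrix.det_isEmpty]
  exact Or.inl ⟨1, map_one _⟩

theorem trace_zero_given : ∀ z ∈ traceSet F 0, z ∈ Given F (Fin 3 × Fin 0 × Fin 0) := by
  rintro _ rfl
  simp only [Finset.univ_eq_empty, Finset.sum_empty]
  exact Or.inl ⟨0, map_zero _⟩

variable {F}

theorem invCost_clog {τ : ℝ} (hτ : omegaMM F < τ) : ∃ D : ℝ, 0 ≤ D ∧
    ∀ n : ℕ, 1 ≤ n → (invCost F (Nat.clog 2 n) : ℝ) ≤ D * (n : ℝ) ^ τ := by
  obtain ⟨D, hD0, hD⟩ := invCost_upper hτ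
  have h2 : 0 ≤ τ := by linarith [(two_le_omegaMM F).trans hτ.le]
  refine ⟨D * (2 : ℝ) ^ τ, by positivity, fun n hn => ?_⟩
  have h3 : 2 ^ Nat.clog 2 n ≤ 2 * n := by
    rcases Nat.eq_zero_or_pos (Nat.clog 2 n) with hz | hz
    · rw [hz, pow_zero]; omega
    · have hn2 : 1 < n := by
        by_contra hcon
        have : n = 1 := by omega
        rw [this, Nat.clog_one_right] at hz
        omega
      have := Nat.pow_pred_clog_lt_self (b := 2) (by norm_num) hn2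
      calc 2 ^ Nat.clog 2 n = 2 * 2 ^ (Nat.clog 2 n - 1) := by
            rw [← pow_succ']; congr 1; omega
        _ ≤ 2 * n := Nat.mul_le_mul_left _ this.le
  have h4 : ((2 : ℝ) ^ Nat.clog 2 n) ^ τ ≤ (2 : ℝ) ^ τ * (n : ℝ) ^ τ := by
    rw [← Real.mul_rpow (by norm_num) (Nat.cast_nonneg n)]
    refine Real.rpow_le_rpow (by positivity) ?_ h2
    exact_mod_cast h3
  calc (invCost F (Nat.clog 2 n) : ℝ) ≤ D * ((2 : ℝ) ^ Nat.clog 2 n) ^ τ := hD _
    _ ≤ D * ((2 : ℝ) ^ τ * (n : ℝ) ^ τ) := mul_le_mul_of_nonneg_left h4 hD0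
    _ = D * (2 : ℝ) ^ τ * (n : ℝ) ^ τ := by ring

/-- upper bounds from the recursion -/
theorem upper_of {f : ℕ → ℕ} {c : ℕ} (h0 : f 0 = 0)
    (h : ∀ n, f n ≤ c * invCost F (Nat.clog 2 n)) {τ : ℝ} (hτ : omegaMM F < τ) :
    ∃ D : ℝ, ∀ n : ℕ, (f n : ℝ) ≤ D * (n : ℝ) ^ τ := by
  obtain ⟨D, hD0, hD⟩ := invCost_clog hτ
  have h2 : 0 < τ := by linarith [(two_le_omegaMM F).trans hτ.le]
  refine ⟨c * D, fun n => ?_⟩
  rcases Nat.eq_zero_or_pos n with hn | hn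
  · subst hn
    rw [h0]
    simp [Real.zero_rpow h2.ne']
  · have h1 : (f n : ℝ) ≤ c * invCost F (Nat.clog 2 n) := by exact_mod_cast h n
    calc (f n : ℝ) ≤ c * invCost F (Nat.clog 2 n) := h1
      _ ≤ c * (D * (n : ℝ) ^ τ) := mul_le_mul_of_nonneg_left (hD n hn) (Nat.cast_nonneg _)
      _ = c * D * (n : ℝ) ^ τ := by ring

theorem upper_of' {f : ℕ → ℕ} {c : ℕ} (h0 : f 0 = 0)
    (h : ∀ n, f n ≤ c * (sizeMM F n + 2 * n ^ 2)) {τ : ℝ} (hτ : omegaMM F < τ) :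
    ∃ D : ℝ, ∀ n : ℕ, (f n : ℝ) ≤ D * (n : ℝ) ^ τ := by
  obtain ⟨D, hD⟩ := sizeMM_upper hτ
  have h2 : 2 ≤ τ := (two_le_omegaMM F).trans hτ.le
  refine ⟨c * (D + 2), fun n => ?_⟩
  rcases Nat.eq_zero_or_pos n with hn | hn
  · subst hn
    rw [h0]
    simp [Real.zero_rpow (by linarith : τ ≠ 0)]
  · have h1 : (f n : ℝ) ≤ c * ((sizeMM F n : ℝ) + 2 * (n : ℝ) ^ 2) := by exact_mod_cast h n
    have h3 : (n : ℝ) ^ 2 ≤ (n : ℝ) ^ τ := by
      rw [← Real.rpow_two]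
      exact Real.rpow_le_rpow_of_exponent_le (by exact_mod_cast hn) h2
    calc (f n : ℝ) ≤ c * ((sizeMM F n : ℝ) + 2 * (n : ℝ) ^ 2) := h1
      _ ≤ c * (D * (n : ℝ) ^ τ + 2 * (n : ℝ) ^ τ) :=
          mul_le_mul_of_nonneg_left (by linarith [hD n]) (Nat.cast_nonneg _)
      _ = c * (D + 2) * (n : ℝ) ^ τ := by ring

end exist

section lower

variable {F : Type} [Field F]

theorem rankLE_sub {m m' n n' p p' r : ℕ} (hm : m ≤ m') (hn : n ≤ n') (hp : p ≤ p')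
    (h : RankLE F m' n' p' r) : RankLE F m n p r := by
  obtain ⟨U, V, W, h⟩ := h
  refine ⟨fun l => (U l).submatrix (Fin.castLE hm) (Fin.castLE hn),
    fun l => (V l).submatrix (Fin.castLE hn) (Fin.castLE hp),
    fun l => (W l).submatrix (Fin.castLE hm) (Fin.castLE hp), fun i i' j j' k k' => ?_⟩
  have := h (Fin.castLE hm i) (Fin.castLE hm i') (Fin.castLE hn j) (Fin.castLE hn j')
    (Fin.castLE hp k) (Fin.castLE hp k')
  simp only [Fin.castLE_inj] at this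
  exact this

theorem trank_mono {m m' n n' p p' : ℕ} (hm : m ≤ m') (hn : n ≤ n') (hp : p ≤ p') :
    trank F m n p ≤ trank F m' n' p' :=
  trank_le (rankLE_sub hm hn hp (rankLE_trank F m' n' p'))

theorem trank_third (n : ℕ) : trank F (n / 3) (n / 3) (n / 3) ≤ trank F n n n :=
  trank_mono (Nat.div_le_self _ _) (Nat.div_le_self _ _) (Nat.div_le_self _ _)

/-- lower bounds at a third of the size -/
theorem omega_le_of_third {f : ℕ → ℕ} {a b : ℕ} (hf : ∀ n, trank F (n / 3) (n / 3) (n / 3) ≤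
    a * f n + b) {τ D : ℝ} (h : {n : ℕ | (f n : ℝ) ≤ D * (n : ℝ) ^ τ}.Infinite) :
    omegaMM F ≤ τ := by
  by_contra hcon
  push Not at hcon
  have hw2 := two_le_omegaMM F
  set w := omegaMM F with hw
  -- `m ^ w ≤ a D (5 m) ^ τ + b`
  set τ' := max τ 0 with hτ'
  have hτ'w : τ' < w := max_lt hcon (by linarith)
  have hlim : Tendsto (fun q : ℕ => (q : ℝ) ^ (w - τ')) atTop atTop :=
    (tendsto_rpow_atTop (by linarith)).comp tendsto_natCast_atTop_atTop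
  obtain ⟨N, hN⟩ := (hlim.eventually_gt_atTop (a * |D| * (5 : ℝ) ^ τ' + b)).exists_forall_of_atTop
  obtain ⟨n, hn, hnN⟩ := h.exists_gt (3 * (max N 1))
  set m := n / 3 with hm
  have hmN : max N 1 ≤ m := by omega
  have hm1 : 1 ≤ m := (le_max_right _ _).trans hmN
  have hmn : n ≤ 5 * m := by omega
  have hm0 : (0 : ℝ) < m := by exact_mod_cast hm1
  have hm1' : (1 : ℝ) ≤ m := by exact_mod_cast hm1
  have hn1 : (1 : ℝ) ≤ n := by exact_mod_cast (by omega : 1 ≤ n)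
  have h1 := rpow_omega_le F m hm1
  have h2 : (trank F m m m : ℝ) ≤ a * f n + b := by exact_mod_cast hf n
  have h3 : (f n : ℝ) ≤ |D| * ((5 : ℝ) ^ τ' * (m : ℝ) ^ τ') := by
    have e1 : (f n : ℝ) ≤ D * (n : ℝ) ^ τ := hn
    have e2 : (n : ℝ) ^ τ ≤ (n : ℝ) ^ τ' :=
      Real.rpow_le_rpow_of_exponent_le hn1 (le_max_left _ _)
    have e3 : (n : ℝ) ^ τ' ≤ (5 : ℝ) ^ τ' * (m : ℝ) ^ τ' := by
      rw [← Real.mul_rpow (by norm_num) hm0.le]
      refine Real.rpow_le_rpow (by linarith) ?_ (le_max_right _ _)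
      exact_mod_cast hmn
    have e4 : 0 ≤ (n : ℝ) ^ τ := Real.rpow_nonneg (by linarith) _
    calc (f n : ℝ) ≤ D * (n : ℝ) ^ τ := e1
      _ ≤ |D| * (n : ℝ) ^ τ := mul_le_mul_of_nonneg_right (le_abs_self D) e4
      _ ≤ |D| * ((5 : ℝ) ^ τ' * (m : ℝ) ^ τ') :=
          mul_le_mul_of_nonneg_left (e2.trans e3) (abs_nonneg D)
  have h4 : (m : ℝ) ^ (w - τ') * (m : ℝ) ^ τ' = (m : ℝ) ^ w := by
    rw [← Real.rpow_add hm0]
    congr 1
    ring
  have h5 := hN m ((le_max_left _ _).trans hmN)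
  have h6 := mul_lt_mul_of_pos_right h5 (Real.rpow_pos_of_pos hm0 τ')
  rw [h4] at h6
  have h7 : (1 : ℝ) ≤ (m : ℝ) ^ τ' := Real.one_le_rpow hm1' (le_max_right _ _)
  have h8 : (a : ℝ) * f n ≤ a * (|D| * ((5 : ℝ) ^ τ' * (m : ℝ) ^ τ')) :=
    mul_le_mul_of_nonneg_left h3 (Nat.cast_nonneg _)
  have h9 : (b : ℝ) ≤ b * (m : ℝ) ^ τ' := le_mul_of_one_le_right (Nat.cast_nonneg _) h7
  have h10 : ((a : ℝ) * |D| * (5 : ℝ) ^ τ' + b) * (m : ℝ) ^ τ' =
      a * (|D| * ((5 : ℝ) ^ τ' * (m : ℝ) ^ τ')) + b * (m : ℝ) ^ τ' := by ring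
  linarith

theorem growth_of_third {f : ℕ → ℕ} {a b : ℕ} (hf : ∀ n, trank F (n / 3) (n / 3) (n / 3) ≤
    a * f n + b) (hup : ∀ τ, omegaMM F < τ → ∃ D : ℝ, ∀ m : ℕ, (f m : ℝ) ≤ D * (m : ℝ) ^ τ) :
    growth f = omega F ∧
      ∀ τ D : ℝ, {n : ℕ | (f n : ℝ) ≤ D * (n : ℝ) ^ τ}.Infinite → omega F ≤ τ := by
  have hlow : ∀ τ ∈ {τ : ℝ | ∃ D : ℝ, ∀ m : ℕ, (f m : ℝ) ≤ D * (m : ℝ) ^ τ},
      omegaMM F ≤ τ := by
    rintro τ ⟨D, hD⟩
    refine omega_le_of_third hf (τ := τ) (D := D) ?_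
    rw [show {m : ℕ | (f m : ℝ) ≤ D * (m : ℝ) ^ τ} = Set.univ from
      Set.eq_univ_of_forall hD]
    exact Set.infinite_univ
  rw [omega_eq]
  refine ⟨?_, fun τ D h => omega_le_of_third hf h⟩
  apply le_antisymm
  · refine le_of_forall_pos_le_add fun ε hε => ?_
    exact csInf_le ⟨omegaMM F, hlow⟩ (hup _ (by linarith))
  · refine le_csInf ?_ hlow
    exact ⟨_, hup _ (lt_add_one _)⟩

end lower

end Pool.Agent.Q225.Add
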