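import Pool.Agent.Q225.Add.ThreeGen

set_option autoImplicit false
set_option linter.unusedSectionVars false

/-!
# The determinant, the inverse and the trace form need many additions
-/

namespace Pool.Agent.Q225.Add

open MvPolynomial Pool.Agent.W956.KF Pool.Agent.H53R3

section sums

variable {K : Type} [Field K]

theorem sum_three {I J L : Type} [Fintype I] [Fintype J] [Fintype L] (a : I → K) (b : J → K)
    (c : L → K) : ∑ i, ∑ j, ∑ l, a i * b j * c l = (∑ i, a i) * (∑ j, b j) * ∑ l, c l := by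
  rw [Finset.sum_mul_sum, Finset.sum_mul]
  refine Finset.sum_congr rfl fun i _ => ?_
  rw [Finset.sum_mul]
  refine Finset.sum_congr rfl fun j _ => ?_
  rw [Finset.mul_sum]

theorem contract {I J L T : Type} [Fintype I] [Fintype J] [Fintype L] [Fintype T]
    {x : T → I → K} {y : T → J → K} {z : T → L → K} {f : I → J → L → K}
    (h : ∀ i j l, f i j l = ∑ t, x t i * y t j * z t l) (a : I → K) (b : J → K) (c : L → K) :
    ∑ t, (∑ i, a i * x t i) * (∑ j, b j * y t j) * (∑ l, c l * z t l) =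
      ∑ i, ∑ j, ∑ l, a i * b j * c l * f i j l := by
  have h1 : ∀ t, (∑ i, a i * x t i) * (∑ j, b j * y t j) * (∑ l, c l * z t l) =
      ∑ i, ∑ j, ∑ l, a i * x t i * (b j * y t j) * (c l * z t l) := fun t =>
    (sum_three _ _ _).symm
  simp only [h1]
  rw [Finset.sum_comm]
  refine Finset.sum_congr rfl fun i _ => ?_
  rw [Finset.sum_comm]
  refine Finset.sum_congr rfl fun j _ => ?_
  rw [Finset.sum_comm]
  refine Finset.sum_congr rfl fun l _ => ?_
  rw [h, Finset.mul_sum]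
  exact Finset.sum_congr rfl fun t _ => by ring

end sums

section

variable {F : Type} [Field F] {n : ℕ}

theorem det_gen_ne_zero (F : Type) [Field F] (n : ℕ) : (gen F n).det ≠ 0 := by
  have e : gen F n = (Matrix.mvPolynomialX (Fin n) (Fin n) F).map
      (algebraMap (MvPolynomial (Fin n × Fin n) F) (Rt F (Fin n × Fin n))) := by
    ext i j
    simp [gen, gz, Matrix.mvPolynomialX]
  rw [e]
  have h1 : ((Matrix.mvPolynomialX (Fin n) (Fin n) F).map
      (algebraMap (MvPolynomial (Fin n × Fin n) F) (Rt F (Fin n × Fin n)))).det =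
      algebraMap _ _ (Matrix.mvPolynomialX (Fin n) (Fin n) F).det := by
    rw [RingHom.map_det]
    rfl
  rw [h1]
  intro h
  exact Matrix.det_mvPolynomialX_ne_zero (Fin n) F
    ((IsFractionRing.injective (MvPolynomial (Fin n × Fin n) F) (Rt F (Fin n × Fin n)))
      (h.trans (map_zero _).symm))

theorem isUnit_det_gen (F : Type) [Field F] (n : ℕ) : IsUnit (gen F n).det :=
  isUnit_iff_ne_zero.2 (det_gen_ne_zero F n)

theorem inv_mul_gen (b a : Fin n) :
    ∑ r, gen F n r a * (gen F n)⁻¹ b r = if b = a then 1 else 0 := by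
  have := congrFun (congrFun (Matrix.nonsing_inv_mul (gen F n) (isUnit_det_gen F n)) b) a
  rw [Matrix.mul_apply, Matrix.one_apply] at this
  rw [← this]
  exact Finset.sum_congr rfl fun r _ => mul_comm _ _

theorem gen_mul_inv (b a : Fin n) :
    ∑ r, gen F n b r * (gen F n)⁻¹ r a = if b = a then 1 else 0 := by
  have := congrFun (congrFun (Matrix.mul_nonsing_inv (gen F n) (isUnit_det_gen F n)) b) a
  rw [Matrix.mul_apply, Matrix.one_apply] at this
  exact this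

variable {D : (Fin n × Fin n) → Rt F (Fin n × Fin n) → Rt F (Fin n × Fin n)}
  (hD : ∀ x, IsDer (D x)) (hv : ∀ x j, D x (gz F (Fin n × Fin n) j) = if j = x then 1 else 0)

include hD hv

theorem dMat_gen (v : Fin n × Fin n) : dMat (D v) (gen F n) = Matrix.single v.1 v.2 1 := by
  ext i j
  simp only [dMat, Matrix.map_apply, gen, Matrix.of_apply, hv, Matrix.single, Prod.ext_iff]
  congr 1
  rw [@eq_comm _ i, @eq_comm _ j]

theorem der_inv_gen (v : Fin n × Fin n) (x y : Fin n) :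
    D v ((gen F n)⁻¹ x y) = -((gen F n)⁻¹ x v.1 * (gen F n)⁻¹ v.2 y) := by
  have h1 := congrFun (congrFun ((hD v).dMat_inv (gen F n) (isUnit_det_gen F n)) x) y
  rw [dMat_gen hD hv] at h1
  simp only [dMat, Matrix.map_apply] at h1
  rw [h1]
  simp [Matrix.mul_apply, Matrix.single, ite_and]

theorem der_det_gen (v : Fin n × Fin n) :
    D v (gen F n).det / (gen F n).det = (gen F n)⁻¹ v.2 v.1 := by
  rw [(hD v).det (gen F n) (isUnit_det_gen F n), dMat_gen hD hv, mul_div_cancel_left₀ _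
    (det_gen_ne_zero F n)]
  simp [Matrix.trace, Matrix.mul_apply, Matrix.single, ite_and]

/-- third logarithmic derivatives of the determinant -/
theorem log_det_three (u v w : Fin n × Fin n) :
    D u (D v (D w (gen F n).det / (gen F n).det)) =
      (gen F n)⁻¹ w.2 u.1 * (gen F n)⁻¹ u.2 v.1 * (gen F n)⁻¹ v.2 w.1 +
      (gen F n)⁻¹ w.2 v.1 * (gen F n)⁻¹ v.2 u.1 * (gen F n)⁻¹ u.2 w.1 := by
  rw [der_det_gen hD hv, der_inv_gen hD hv, (hD u).neg, (hD u).mul, der_inv_gen hD hv,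
    der_inv_gen hD hv]
  ring

/-- second derivatives of the entries of the inverse -/
theorem inv_two (u v : Fin n × Fin n) (x y : Fin n) :
    D u (D v ((gen F n)⁻¹ x y)) =
      (gen F n)⁻¹ x u.1 * (gen F n)⁻¹ u.2 v.1 * (gen F n)⁻¹ v.2 y +
      (gen F n)⁻¹ x v.1 * (gen F n)⁻¹ v.2 u.1 * (gen F n)⁻¹ u.2 y := by
  rw [der_inv_gen hD hv, (hD u).neg, (hD u).mul, der_inv_gen hD hv, der_inv_gen hD hv]
  ring

theorem inv_entry_ne_zero (x y : Fin n) : (gen F n)⁻¹ x y ≠ 0 := by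
  intro h
  have h1 : ∀ r b, (gen F n)⁻¹ x r * (gen F n)⁻¹ b y = 0 := by
    intro r b
    have := der_inv_gen hD hv (r, b) x y
    rw [h, (hD _).zero] at this
    exact neg_eq_zero.1 this.symm
  obtain ⟨r, hr⟩ : ∃ r, (gen F n)⁻¹ x r ≠ 0 := by
    by_contra hcon
    push Not at hcon
    have := inv_mul_gen (F := F) x x
    simp [hcon] at this
  obtain ⟨b, hb⟩ : ∃ b, (gen F n)⁻¹ b y ≠ 0 := by
    by_contra hcon
    push Not at hcon
    have := gen_mul_inv (F := F) y y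
    simp [hcon] at this
  rcases mul_eq_zero.1 (h1 r b) with h' | h'
  · exact hr h'
  · exact hb h'

/-- second logarithmic derivatives of the entries of the inverse -/
theorem inv_log_two (u v : Fin n × Fin n) (x y : Fin n) :
    (gen F n)⁻¹ x y * D u (D v ((gen F n)⁻¹ x y) / (gen F n)⁻¹ x y) =
      (gen F n)⁻¹ x u.1 * (gen F n)⁻¹ u.2 v.1 * (gen F n)⁻¹ v.2 y +
      (gen F n)⁻¹ x v.1 * (gen F n)⁻¹ v.2 u.1 * (gen F n)⁻¹ u.2 y -
      (gen F n)⁻¹ x v.1 * (gen F n)⁻¹ v.2 y * ((gen F n)⁻¹ x u.1 * (gen F n)⁻¹ u.2 y) /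
        (gen F n)⁻¹ x y := by
  have h0 := inv_entry_ne_zero hD hv x y
  rw [der_div (hD u) h0, inv_two hD hv, der_inv_gen hD hv, der_inv_gen hD hv]
  field_simp

end

section

variable {F : Type} [Field F] {n : ℕ}

/-- from the third logarithmic derivatives of the determinant to matrix multiplication -/
theorem det_rank_of_tensor {p q r N : ℕ} {c1 : Fin p → Fin n} {c2 : Fin q → Fin n}
    {c3 : Fin r → Fin n} (i1 : Function.Injective c1) (i2 : Function.Injective c2)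
    (i3 : Function.Injective c3) (h13 : ∀ i k, c1 i ≠ c3 k)
    {D : (Fin n × Fin n) → Rt F (Fin n × Fin n) → Rt F (Fin n × Fin n)}
    (hD : ∀ x, IsDer (D x)) (hv : ∀ x j, D x (gz F (Fin n × Fin n) j) = if j = x then 1 else 0)
    (h : TensorRankLE (fun (i : Fin n × Fin p) (j : Fin n × Fin q) (l : Fin n × Fin r) =>
      D (i.1, c1 i.2) (D (j.1, c2 j.2) (D (l.1, c3 l.2) (gen F n).det / (gen F n).det))) N) :
    RankLE (Rt F (Fin n × Fin n)) p q r N := by
  obtain ⟨x, y, z, h⟩ := h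
  refine ⟨fun t => Matrix.of fun i j => ∑ ρ, gen F n ρ (c1 i) * y t (ρ, j),
    fun t => Matrix.of fun j k => ∑ ρ, gen F n ρ (c2 j) * z t (ρ, k),
    fun t => Matrix.of fun i k => ∑ ρ, gen F n ρ (c3 k) * x t (ρ, i), ?_⟩
  intro i i' j j' k k'
  simp only [Matrix.of_apply]
  have key := contract (x := fun t (ρ : Fin n) => x t (ρ, i')) (y := fun t (ρ : Fin n) => y t (ρ, j))
    (z := fun t (ρ : Fin n) => z t (ρ, k)) (f := fun ρ'' ρ' ρ => D (ρ'', c1 i') (D (ρ', c2 j)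
      (D (ρ, c3 k) (gen F n).det / (gen F n).det)))
    (fun a b c => h (a, i') (b, j) (c, k)) (fun ρ => gen F n ρ (c3 k'))
    (fun ρ => gen F n ρ (c1 i)) (fun ρ => gen F n ρ (c2 j'))
  have e1 : ∑ t, (∑ ρ, gen F n ρ (c1 i) * y t (ρ, j)) * (∑ ρ, gen F n ρ (c2 j') * z t (ρ, k)) *
      (∑ ρ, gen F n ρ (c3 k') * x t (ρ, i')) =
      ∑ t, (∑ ρ, gen F n ρ (c3 k') * x t (ρ, i')) * (∑ ρ, gen F n ρ (c1 i) * y t (ρ, j)) *
        (∑ ρ, gen F n ρ (c2 j') * z t (ρ, k)) := Finset.sum_congr rfl fun t _ => by ring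
  rw [e1, key]
  simp only [log_det_three hD hv]
  have e2 : ∀ ρ'' ρ' ρ : Fin n, gen F n ρ'' (c3 k') * gen F n ρ' (c1 i) * gen F n ρ (c2 j') *
      ((gen F n)⁻¹ (c3 k) ρ'' * (gen F n)⁻¹ (c1 i') ρ' * (gen F n)⁻¹ (c2 j) ρ +
      (gen F n)⁻¹ (c3 k) ρ' * (gen F n)⁻¹ (c2 j) ρ'' * (gen F n)⁻¹ (c1 i') ρ) =
      (gen F n ρ'' (c3 k') * (gen F n)⁻¹ (c3 k) ρ'') * (gen F n ρ' (c1 i) * (gen F n)⁻¹ (c1 i') ρ') *
        (gen F n ρ (c2 j') * (gen F n)⁻¹ (c2 j) ρ) +
      (gen F n ρ'' (c3 k') * (gen F n)⁻¹ (c2 j) ρ'') * (gen F n ρ' (c1 i) * (gen F n)⁻¹ (c3 k) ρ') *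
        (gen F n ρ (c2 j') * (gen F n)⁻¹ (c1 i') ρ) := fun _ _ _ => by ring
  simp only [e2, Finset.sum_add_distrib, sum_three, inv_mul_gen]
  have n1 : ¬ c3 k = c1 i := fun h => h13 i k h.symm
  rw [if_neg n1]
  simp only [i1.eq_iff, i2.eq_iff, i3.eq_iff, mul_zero, zero_mul, add_zero]
  by_cases a1 : i = i' <;> by_cases a2 : j = j' <;> by_cases a3 : k = k' <;>
    simp [a1, a2, a3, eq_comm]

/-- three disjoint groups of columns -/
theorem exists_columns {p q r : ℕ} (h : p + q + r ≤ n) : ∃ (c1 : Fin p → Fin n)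
    (c2 : Fin q → Fin n) (c3 : Fin r → Fin n), Function.Injective c1 ∧ Function.Injective c2 ∧
      Function.Injective c3 ∧ (∀ i j, c1 i ≠ c2 j) ∧ (∀ i k, c1 i ≠ c3 k) ∧ ∀ j k, c2 j ≠ c3 k := by
  refine ⟨fun i => ⟨i, by omega⟩, fun j => ⟨p + j, by omega⟩, fun k => ⟨p + q + k, by omega⟩,
    fun i i' h => ?_, fun i i' h => ?_, fun i i' h => ?_, fun i j h => ?_, fun i j h => ?_,
    fun i j h => ?_⟩ <;>
  · simp only [Fin.mk.injEq] at h
    omega

/-- **The determinant, multiplications and divisions free.** -/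
theorem rank_of_det_compP {p q r s : ℕ} (hn : p + q + r ≤ n)
    (h : CompP F (Fin n × Fin n) (detSet F n) s) :
    RankLE (Rt F (Fin n × Fin n)) p q r (9 * s) := by
  obtain ⟨D, hD, hc, hv⟩ := exists_dersV F (Fin n × Fin n)
  obtain ⟨c1, c2, c3, i1, i2, i3, h12, h13, h23⟩ := exists_columns hn
  refine det_rank_of_tensor i1 i2 i3 h13 hD hv ?_
  refine tensor_compP hD hc hv (α := fun i : Fin n × Fin p => (i.1, c1 i.2))
    (β := fun i : Fin n × Fin q => (i.1, c2 i.2)) (γ := fun i : Fin n × Fin r => (i.1, c3 i.2))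
    (fun i j h => h12 _ _ (Prod.ext_iff.1 h).2) (fun i j h => h13 _ _ (Prod.ext_iff.1 h).2)
    (fun i j h => h23 _ _ (Prod.ext_iff.1 h).2) h

/-- **The determinant, functions of one variable free.** -/
theorem rank_of_det_compU {p q r s : ℕ} (hn : p + q + r ≤ n)
    (h : CompU F (Fin n × Fin n) (detSet F n) s) :
    RankLE (Rt F (Fin n × Fin n)) p q r (3 * s + 3) := by
  obtain ⟨D, hD, hc, hv⟩ := exists_dersV F (Fin n × Fin n)
  obtain ⟨c1, c2, c3, i1, i2, i3, h12, h13, h23⟩ := exists_columns hn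
  refine det_rank_of_tensor i1 i2 i3 h13 hD hv ?_
  refine tensor_compU' hD hc hv (α := fun i : Fin n × Fin p => (i.1, c1 i.2))
    (β := fun i : Fin n × Fin q => (i.1, c2 i.2)) (γ := fun i : Fin n × Fin r => (i.1, c3 i.2))
    (fun i j h => h12 _ _ (Prod.ext_iff.1 h).2) (fun i j h => h13 _ _ (Prod.ext_iff.1 h).2)
    (fun i j h => h23 _ _ (Prod.ext_iff.1 h).2) h

/-- **The inverse, multiplications and divisions free.** -/
theorem rank_of_inv_compP {p q r s : ℕ} (hp : p + q ≤ n) (hr : r + q ≤ n)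
    (h : CompP F (Fin n × Fin n) (invSet F n) s) :
    RankLE (Rt F (Fin n × Fin n)) p q r (3 * s) := by
  classical
  obtain ⟨D, hD, hc, hv⟩ := exists_dersV F (Fin n × Fin n)
  obtain ⟨P, hP⟩ := two_compP hD hc hv h
  have hP' : ∀ x y : Fin n, ∃ c : Fin s × Fin 3 → Rt F (Fin n × Fin n), ∀ v w, v ≠ w →
      D v (D w ((gen F n)⁻¹ x y) / (gen F n)⁻¹ x y) = ∑ t, c t * P t v * P t w :=
    fun x y => hP _ ⟨(x, y), rfl⟩
  choose c hcc using hP'
  set c1 : Fin p → Fin n := fun i => ⟨i, by omega⟩ with hc1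
  set c2 : Fin q → Fin n := fun j => ⟨n - q + j, by omega⟩ with hc2
  set c3 : Fin r → Fin n := fun k => ⟨k, by omega⟩ with hc3
  have i1 : Function.Injective c1 := fun a b h => by
    simp only [hc1, Fin.mk.injEq] at h; omega
  have i2 : Function.Injective c2 := fun a b h => by
    simp only [hc2, Fin.mk.injEq] at h; omega
  have i3 : Function.Injective c3 := fun a b h => by
    simp only [hc3, Fin.mk.injEq] at h; omega
  have h12 : ∀ i j, c1 i ≠ c2 j := fun i j h => by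
    simp only [hc1, hc2, Fin.mk.injEq] at h; omega
  have h32 : ∀ i j, c3 i ≠ c2 j := fun i j h => by
    simp only [hc3, hc2, Fin.mk.injEq] at h; omega
  have hcard : Fintype.card (Fin s × Fin 3) = 3 * s := by
    simp only [Fintype.card_prod, Fintype.card_fin]; ring
  rw [← hcard]
  refine rankLE_of_fintype (fun t => Matrix.of fun i j => ∑ ρ, gen F n ρ (c1 i) * P t (ρ, c2 j))
    (fun t => Matrix.of fun j k => ∑ ρ, gen F n ρ (c2 j) * P t (ρ, c3 k))
    (fun t => Matrix.of fun i k => ∑ y, gen F n y (c3 k) * ((gen F n)⁻¹ (c1 i) y * c (c1 i) y t)) ?_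
  intro i i' j j' k k'
  simp only [Matrix.of_apply]
  have key := contract (x := fun t (ρ : Fin n) => P t (ρ, c2 j))
    (y := fun t (ρ : Fin n) => P t (ρ, c3 k))
    (z := fun t (y : Fin n) => (gen F n)⁻¹ (c1 i') y * c (c1 i') y t)
    (f := fun ρ' ρ y => (gen F n)⁻¹ (c1 i') y *
      D (ρ', c2 j) (D (ρ, c3 k) ((gen F n)⁻¹ (c1 i') y) / (gen F n)⁻¹ (c1 i') y))
    (fun ρ' ρ y => by
      have hne : ((ρ', c2 j) : Fin n × Fin n) ≠ (ρ, c3 k) :=
        fun h => h32 _ _ (Prod.ext_iff.1 h).2.symm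
      rw [hcc (c1 i') y (ρ', c2 j) (ρ, c3 k) hne, Finset.mul_sum]
      exact Finset.sum_congr rfl fun t _ => by ring)
    (fun ρ => gen F n ρ (c1 i)) (fun ρ => gen F n ρ (c2 j')) (fun y => gen F n y (c3 k'))
  rw [key]
  simp only [inv_log_two hD hv]
  have e2 : ∀ ρ' ρ y : Fin n, gen F n ρ' (c1 i) * gen F n ρ (c2 j') * gen F n y (c3 k') *
      ((gen F n)⁻¹ (c1 i') ρ' * (gen F n)⁻¹ (c2 j) ρ * (gen F n)⁻¹ (c3 k) y +
      (gen F n)⁻¹ (c1 i') ρ * (gen F n)⁻¹ (c3 k) ρ' * (gen F n)⁻¹ (c2 j) y -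
      (gen F n)⁻¹ (c1 i') ρ * (gen F n)⁻¹ (c3 k) y * ((gen F n)⁻¹ (c1 i') ρ' *
        (gen F n)⁻¹ (c2 j) y) / (gen F n)⁻¹ (c1 i') y) =
      (gen F n ρ' (c1 i) * (gen F n)⁻¹ (c1 i') ρ') * (gen F n ρ (c2 j') * (gen F n)⁻¹ (c2 j) ρ) *
        (gen F n y (c3 k') * (gen F n)⁻¹ (c3 k) y) +
      (gen F n ρ' (c1 i) * (gen F n)⁻¹ (c3 k) ρ') * (gen F n ρ (c2 j') * (gen F n)⁻¹ (c1 i') ρ) *
        (gen F n y (c3 k') * (gen F n)⁻¹ (c2 j) y) -
      (gen F n ρ' (c1 i) * (gen F n)⁻¹ (c1 i') ρ') * (gen F n ρ (c2 j') * (gen F n)⁻¹ (c1 i') ρ) *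
        (gen F n y (c3 k') * ((gen F n)⁻¹ (c3 k) y * (gen F n)⁻¹ (c2 j) y /
          (gen F n)⁻¹ (c1 i') y)) := fun _ _ _ => by ring
  simp only [e2, Finset.sum_add_distrib, Finset.sum_sub_distrib, sum_three, inv_mul_gen]
  have n1 : ¬ c1 i' = c2 j' := h12 i' j'
  rw [if_neg n1]
  simp only [i1.eq_iff, i2.eq_iff, i3.eq_iff, mul_zero, zero_mul, add_zero, sub_zero]
  by_cases a1 : i = i' <;> by_cases a2 : j = j' <;> by_cases a3 : k = k' <;>
    simp [a1, a2, a3, eq_comm]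

/-- **The inverse, functions of one variable free.** -/
theorem rank_of_inv_compU {q r s : ℕ} (hr : r + q ≤ n)
    (h : CompU F (Fin n × Fin n) (invSet F n) s) :
    RankLE (Rt F (Fin n × Fin n)) n q r s := by
  classical
  obtain ⟨D, hD, hc, hv⟩ := exists_dersV F (Fin n × Fin n)
  obtain ⟨P, hP⟩ := two_compU hD hc hv h
  have hP' : ∀ x y : Fin n, ∃ c : Fin s → Rt F (Fin n × Fin n), ∀ v w, v ≠ w →
      D v (D w ((gen F n)⁻¹ x y)) = ∑ t, c t * P t v * P t w :=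
    fun x y => hP _ ⟨(x, y), rfl⟩
  choose c hcc using hP'
  set c2 : Fin q → Fin n := fun j => ⟨n - q + j, by omega⟩ with hc2
  set c3 : Fin r → Fin n := fun k => ⟨k, by omega⟩ with hc3
  have i2 : Function.Injective c2 := fun a b h => by
    simp only [hc2, Fin.mk.injEq] at h; omega
  have i3 : Function.Injective c3 := fun a b h => by
    simp only [hc3, Fin.mk.injEq] at h; omega
  have h32 : ∀ i j, c3 i ≠ c2 j := fun i j h => by
    simp only [hc3, hc2, Fin.mk.injEq] at h; omega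
  refine ⟨fun t => Matrix.of fun i j => P t (i, c2 j),
    fun t => Matrix.of fun j k => ∑ ρ, gen F n ρ (c2 j) * P t (ρ, c3 k),
    fun t => Matrix.of fun i k => ∑ x, ∑ y, gen F n i x * gen F n y (c3 k) * c x y t, ?_⟩
  intro i i' j j' k k'
  simp only [Matrix.of_apply]
  have key : ∑ t, P t (i, c2 j) * (∑ ρ, gen F n ρ (c2 j') * P t (ρ, c3 k)) *
      (∑ x, ∑ y, gen F n i' x * gen F n y (c3 k') * c x y t) =
      ∑ x, ∑ ρ, ∑ y, gen F n i' x * gen F n ρ (c2 j') * gen F n y (c3 k') *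
        D (i, c2 j) (D (ρ, c3 k) ((gen F n)⁻¹ x y)) := by
    have h1 : ∀ t, P t (i, c2 j) * (∑ ρ, gen F n ρ (c2 j') * P t (ρ, c3 k)) *
        (∑ x, ∑ y, gen F n i' x * gen F n y (c3 k') * c x y t) =
        ∑ x, ∑ ρ, ∑ y, gen F n i' x * gen F n ρ (c2 j') * gen F n y (c3 k') *
          (c x y t * P t (i, c2 j) * P t (ρ, c3 k)) := by
      intro t
      rw [Finset.mul_sum]
      refine Finset.sum_congr rfl fun x _ => ?_
      rw [mul_assoc, Finset.sum_mul_sum, Finset.mul_sum]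
      refine Finset.sum_congr rfl fun ρ _ => ?_
      rw [Finset.mul_sum]
      refine Finset.sum_congr rfl fun y _ => ?_
      ring
    simp only [h1]
    rw [Finset.sum_comm]
    refine Finset.sum_congr rfl fun x _ => ?_
    rw [Finset.sum_comm]
    refine Finset.sum_congr rfl fun ρ _ => ?_
    rw [Finset.sum_comm]
    refine Finset.sum_congr rfl fun y _ => ?_
    have hne : ((i, c2 j) : Fin n × Fin n) ≠ (ρ, c3 k) :=
      fun h => h32 _ _ (Prod.ext_iff.1 h).2.symm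
    rw [hcc x y _ _ hne, Finset.mul_sum]
  rw [key]
  simp only [inv_two hD hv]
  have e2 : ∀ x ρ y : Fin n, gen F n i' x * gen F n ρ (c2 j') * gen F n y (c3 k') *
      ((gen F n)⁻¹ x i * (gen F n)⁻¹ (c2 j) ρ * (gen F n)⁻¹ (c3 k) y +
      (gen F n)⁻¹ x ρ * (gen F n)⁻¹ (c3 k) i * (gen F n)⁻¹ (c2 j) y) =
      (gen F n i' x * (gen F n)⁻¹ x i) * (gen F n ρ (c2 j') * (gen F n)⁻¹ (c2 j) ρ) *
        (gen F n y (c3 k') * (gen F n)⁻¹ (c3 k) y) +
      (gen F n i' x * ((gen F n)⁻¹ x ρ * (gen F n ρ (c2 j') * (gen F n)⁻¹ (c3 k) i))) *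
        (gen F n y (c3 k') * (gen F n)⁻¹ (c2 j) y) := fun _ _ _ => by ring
  have n1 : ¬ c2 j = c3 k' := fun h => h32 _ _ h.symm
  have e3 : ∑ x : Fin n, ∑ ρ : Fin n, ∑ y : Fin n, (gen F n i' x * ((gen F n)⁻¹ x ρ *
      (gen F n ρ (c2 j') * (gen F n)⁻¹ (c3 k) i))) * (gen F n y (c3 k') * (gen F n)⁻¹ (c2 j) y) = 0 := by
    refine Finset.sum_eq_zero fun x _ => Finset.sum_eq_zero fun ρ _ => ?_
    rw [← Finset.mul_sum, inv_mul_gen, if_neg n1, mul_zero]
  simp only [e2, Finset.sum_add_distrib]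
  rw [e3, sum_three]
  simp only [inv_mul_gen, gen_mul_inv, i2.eq_iff, i3.eq_iff, add_zero]
  by_cases a1 : i = i' <;> by_cases a2 : j = j' <;> by_cases a3 : k = k' <;>
    simp [a1, a2, a3, eq_comm]

end

end Pool.Agent.Q225.Add
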