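import Pool.Agent.Q225.Add.InvLower

set_option autoImplicit false
set_option linter.unusedSectionVars false

/-!
# The trace form needs many additions
-/

namespace Pool.Agent.Q225.Add

open MvPolynomial Pool.Agent.W956.KF Pool.Agent.H53R3

variable {F : Type} [Field F] {m : ℕ}

/-- the trace form -/
noncomputable def trf (F : Type) [Field F] (m : ℕ) : Rt F (Fin 3 × Fin m × Fin m) :=
  ∑ i, ∑ j, ∑ k, gz F (Fin 3 × Fin m × Fin m) (0, i, j) * gz F (Fin 3 × Fin m × Fin m) (1, j, k) *
    gz F (Fin 3 × Fin m × Fin m) (2, k, i)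

theorem traceSet_eq : traceSet F m = {trf F m} := rfl

variable {D : (Fin 3 × Fin m × Fin m) → Rt F (Fin 3 × Fin m × Fin m) →
    Rt F (Fin 3 × Fin m × Fin m)}
  (hD : ∀ x, IsDer (D x))
  (hv : ∀ x j, D x (gz F (Fin 3 × Fin m × Fin m) j) = if j = x then 1 else 0)

include hD hv

theorem trf_one (k' i' : Fin m) : D (2, k', i') (trf F m) =
    ∑ j, gz F (Fin 3 × Fin m × Fin m) (0, i', j) * gz F (Fin 3 × Fin m × Fin m) (1, j, k') := by
  unfold trf
  simp only [(hD _).sum, (hD _).mul, hv, Prod.mk.injEq, Fin.isValue, Fin.reduceEq, false_and,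
    if_false, zero_mul, mul_zero, add_zero, zero_add, true_and, mul_ite, mul_one, ite_and]
  rw [Finset.sum_eq_single i']
  · refine Finset.sum_congr rfl fun j _ => ?_
    simp
  · intro i _ hi
    refine Finset.sum_eq_zero fun j _ => Finset.sum_eq_zero fun k _ => ?_
    simp [hi]
  · simp

theorem trf_three (i j j' k k' i' : Fin m) :
    D (0, i, j) (D (1, j', k) (D (2, k', i') (trf F m))) =
      if i = i' ∧ j = j' ∧ k = k' then 1 else 0 := by
  have h1 : D (1, j', k) (D (2, k', i') (trf F m)) =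
      if k = k' then gz F (Fin 3 × Fin m × Fin m) (0, i', j') else 0 := by
    rw [trf_one hD hv, (hD _).sum]
    simp only [(hD _).mul, hv, Prod.mk.injEq, Fin.isValue, Fin.reduceEq, false_and,
      if_false, zero_mul, zero_add, true_and, mul_ite, mul_one, mul_zero]
    by_cases hk : k = k'
    · rw [if_pos hk, Finset.sum_eq_single j']
      · rw [if_pos ⟨rfl, hk.symm⟩]
      · intro l _ hl
        rw [if_neg (fun h => hl h.1)]
      · simp
    · rw [if_neg hk]
      refine Finset.sum_eq_zero fun l _ => ?_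
      rw [if_neg (fun h => hk h.2.symm)]
  rw [h1]
  by_cases hk : k = k'
  · rw [if_pos hk, hv]
    simp only [Prod.mk.injEq, true_and]
    by_cases h : i = i' ∧ j = j'
    · rw [if_pos ⟨h.1.symm, h.2.symm⟩, if_pos ⟨h.1, h.2, hk⟩]
    · rw [if_neg (fun h' => h ⟨h'.1.symm, h'.2.symm⟩), if_neg (fun h' => h ⟨h'.1, h'.2.1⟩)]
  · rw [if_neg hk, (hD _).zero, if_neg (fun h => hk h.2.2)]

theorem trace_rank_of_tensor {N : ℕ}
    (h : TensorRankLE (fun (a b c : Fin m × Fin m) =>
      D (0, a.1, a.2) (D (1, b.1, b.2) (D (2, c.1, c.2) (trf F m)))) N) :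
    RankLE (Rt F (Fin 3 × Fin m × Fin m)) m m m N := by
  obtain ⟨x, y, z, h⟩ := h
  refine ⟨fun t => Matrix.of fun i j => x t (i, j), fun t => Matrix.of fun j k => y t (j, k),
    fun t => Matrix.of fun i k => z t (k, i), fun i i' j j' k k' => ?_⟩
  rw [← trf_three hD hv i j j' k k' i']
  exact (h (i, j) (j', k) (k', i')).symm

omit hD hv

theorem rank_of_trace_compP {s : ℕ} (h : CompP F (Fin 3 × Fin m × Fin m) (traceSet F m) s) :
    RankLE (Rt F (Fin 3 × Fin m × Fin m)) m m m (9 * s + 3) := by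
  obtain ⟨D, hD, hc, hv⟩ := exists_dersV F (Fin 3 × Fin m × Fin m)
  refine trace_rank_of_tensor hD hv ?_
  refine tensor_compP' hD hc hv (α := fun a : Fin m × Fin m => (0, a.1, a.2))
    (β := fun a : Fin m × Fin m => (1, a.1, a.2)) (γ := fun a : Fin m × Fin m => (2, a.1, a.2))
    ?_ ?_ ?_ h <;> · intro i j hij; simp at hij

theorem rank_of_trace_compU {s : ℕ} (h : CompU F (Fin 3 × Fin m × Fin m) (traceSet F m) s) :
    RankLE (Rt F (Fin 3 × Fin m × Fin m)) m m m (3 * s) := by
  obtain ⟨D, hD, hc, hv⟩ := exists_dersV F (Fin 3 × Fin m × Fin m)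
  refine trace_rank_of_tensor hD hv ?_
  refine tensor_compU hD hc hv (α := fun a : Fin m × Fin m => (0, a.1, a.2))
    (β := fun a : Fin m × Fin m => (1, a.1, a.2)) (γ := fun a : Fin m × Fin m => (2, a.1, a.2))
    ?_ ?_ ?_ h <;> · intro i j hij; simp at hij

end Pool.Agent.Q225.Add
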