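import Pool.Agent.Q225.Add.Core
import Pool.Agent.Q225.Add.Defs

set_option autoImplicit false
set_option linter.unusedSectionVars false

/-!
# From few additions to a short decomposition
-/

namespace Pool.Agent.Q225.Add

open MvPolynomial Pool.Agent.H522R2 Pool.Agent.W956.KF Pool.Agent.H53R3

variable {F : Type} [Field F] {m : ℕ}

theorem alone_pure {D : Vr m → Rf F m → Rf F m} (hD : ∀ x, IsDer (D x))
    (hc : ∀ x (c : F), D x (algebraMap F _ c) = 0)
    (hv : ∀ x j, D x (gz F (Vr m) j) = if j = x then 1 else 0) {f : Rf F m} (hf : f ∈ Alone F m) :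
    Pure (fun x => D (Sum.inl x)) (fun y => D (Sum.inr y)) f := by
  rcases hf with hf | hf
  · left
    intro y
    refine IntermediateField.adjoin_induction F (p := fun f _ => D (Sum.inr y) f = 0) ?_ ?_ ?_ ?_ ?_ hf
    · rintro _ ⟨x, rfl⟩
      rw [hv]; simp
    · exact fun c => hc _ c
    · intro a b _ _ ha hb
      rw [(hD _).add, ha, hb, add_zero]
    · intro a _ ha
      rcases eq_or_ne a 0 with h | h
      · rw [h, inv_zero, (hD _).zero]
      · rw [der_inv (hD _) h, ha]; simp
    · intro a b _ _ ha hb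
      rw [(hD _).mul, ha, hb]; simp
  · right
    intro x
    refine IntermediateField.adjoin_induction F (p := fun f _ => D (Sum.inl x) f = 0 ∧
      ∀ y, D (Sum.inl x) (D (Sum.inr y) f) = 0) ?_ ?_ ?_ ?_ ?_ hf
    · rintro _ ⟨y, rfl⟩
      refine ⟨by rw [hv]; simp, fun y' => ?_⟩
      rw [hv]
      split_ifs
      · exact (hD _).one
      · exact (hD _).zero
    · exact fun c => ⟨hc _ c, fun y => by rw [hc, (hD _).zero]⟩
    · rintro a b _ _ ⟨ha, ha'⟩ ⟨hb, hb'⟩
      refine ⟨by rw [(hD _).add, ha, hb, add_zero], fun y => ?_⟩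
      rw [(hD (Sum.inr y)).add, (hD _).add, ha', hb', add_zero]
    · rintro a _ ⟨ha, ha'⟩
      rcases eq_or_ne a 0 with h | h
      · refine ⟨by rw [h, inv_zero, (hD _).zero], fun y => ?_⟩
        rw [h, inv_zero, (hD (Sum.inr y)).zero, (hD _).zero]
      · refine ⟨by rw [der_inv (hD _) h, ha]; simp, fun y => ?_⟩
        rw [der_inv (hD _) h, der_div (hD _) (pow_ne_zero 2 h), (hD _).neg, ha', pow_two,
          (hD (Sum.inl x)).mul, ha]
        simp
    · rintro a b _ _ ⟨ha, ha'⟩ ⟨hb, hb'⟩
      refine ⟨by rw [(hD _).mul, ha, hb]; simp, fun y => ?_⟩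
      rw [(hD (Sum.inr y)).mul, (hD _).add, (hD _).mul, (hD _).mul, ha, hb, ha', hb']
      simp

theorem hh_ent {D : Vr m → Rf F m → Rf F m} (hD : ∀ x, IsDer (D x))
    (hv : ∀ x j, D x (gz F (Vr m) j) = if j = x then 1 else 0) (i i' j j' k k' : Fin m) :
    hh (fun x => D (Sum.inl x)) (fun y => D (Sum.inr y)) (ent F m i' k') ((i, j), (j', k)) =
      if i = i' ∧ j = j' ∧ k = k' then 1 else 0 := by
  have h1 : D (Sum.inr (j', k)) (ent F m i' k') =
      if k = k' then gz F (Vr m) (Sum.inl (i', j')) else 0 := by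
    unfold ent
    rw [(hD _).sum]
    simp only [(hD _).mul, hv, reduceCtorEq, if_false, zero_mul, zero_add, Sum.inr.injEq,
      Prod.mk.injEq]
    by_cases hk : k = k'
    · rw [if_pos hk, Finset.sum_eq_single j']
      · rw [if_pos ⟨rfl, hk.symm⟩, mul_one]
      · intro l _ hl
        rw [if_neg (fun h => hl h.1), mul_zero]
      · simp
    · rw [if_neg hk]
      refine Finset.sum_eq_zero fun l _ => ?_
      rw [if_neg (fun h => hk h.2.symm), mul_zero]
  simp only [hh, h1]
  by_cases hk : k = k'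
  · rw [if_pos hk, hv]
    simp only [Sum.inl.injEq, Prod.mk.injEq]
    by_cases h : i = i' ∧ j = j'
    · rw [if_pos ⟨h.1.symm, h.2.symm⟩, if_pos ⟨h.1, h.2, hk⟩]
    · rw [if_neg (fun h' => h ⟨h'.1.symm, h'.2.symm⟩), if_neg (fun h' => h ⟨h'.1, h'.2.1⟩)]
  · rw [if_neg hk, (hD _).zero, if_neg (fun h => hk h.2.2)]

/-- short decompositions from spanning sets of products -/
theorem rankLE_of_span {D : Vr m → Rf F m → Rf F m} (hD : ∀ x, IsDer (D x))
    (hv : ∀ x j, D x (gz F (Vr m) j) = if j = x then 1 else 0) {T : Type} [Fintype T]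
    (g : T → Rf F m)
    (h : ∀ i k, hh (fun x => D (Sum.inl x)) (fun y => D (Sum.inr y)) (ent F m i k) ∈
      Submodule.span (Rf F m) (Set.range fun t : T =>
        gg (fun x => D (Sum.inl x)) (fun y => D (Sum.inr y)) (g t))) :
    RankLE (Rf F m) m m m (Fintype.card T) := by
  classical
  have h' := fun i k => (Submodule.mem_span_range_iff_exists_fun _).1 (h i k)
  choose w hw using h'
  refine rankLE_of_fintype (T := T) (fun t => Matrix.of fun i j => D (Sum.inl (i, j)) (g t))
    (fun t => Matrix.of fun j k => D (Sum.inr (j, k)) (g t))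
    (fun t => Matrix.of fun i k => w i k t) ?_
  intro i i' j j' k k'
  have h1 := congrFun (hw i' k') ((i, j), (j', k))
  rw [hh_ent hD hv, Finset.sum_apply] at h1
  rw [← h1]
  refine Finset.sum_congr rfl fun t _ => ?_
  simp only [Matrix.of_apply, Pi.smul_apply, gg, smul_eq_mul]
  ring

theorem exists_ders (F : Type) [Field F] (m : ℕ) : ∃ D : Vr m → Rf F m → Rf F m,
    (∀ x, IsDer (D x)) ∧ (∀ x (c : F), D x (algebraMap F _ c) = 0) ∧
      ∀ x j, D x (gz F (Vr m) j) = if j = x then 1 else 0 := by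
  choose D h1 h2 h3 using fun x : Vr m => exists_der F (Vr m) x
  exact ⟨D, h1, h2, h3⟩

/-- **Multiplications and divisions are free.** -/
theorem rank_of_freeProducts {s : ℕ} (h : FreeProducts F m s) :
    RankLE (Rf F m) m m m (3 * s + m ^ 2) := by
  classical
  obtain ⟨D, hD, hc, hv⟩ := exists_ders F m
  obtain ⟨h, hrun, hout⟩ := h
  choose u v hu hv' huv using hrun
  set dA : (Fin m × Fin m) → Rf F m → Rf F m := fun x => D (Sum.inl x) with hdA
  set dB : (Fin m × Fin m) → Rf F m → Rf F m := fun y => D (Sum.inr y) with hdB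
  have hA : ∀ x, IsDer (dA x) := fun x => hD _
  have hB : ∀ y, IsDer (dB y) := fun y => hD _
  set g : (Fin s × Fin 3) ⊕ (Fin m × Fin m) → Rf F m := fun t => match t with
    | .inl (t, 0) => u t
    | .inl (t, 1) => v t
    | .inl (t, 2) => h t
    | .inr (i, k) => ent F m i k with hg
  set W : Submodule (Rf F m) ((Fin m × Fin m) × (Fin m × Fin m) → Rf F m) :=
    Submodule.span (Rf F m) (Set.range fun t => gg dA dB (g t)) with hW
  have hmem : ∀ t, gg dA dB (g t) ∈ W := fun t => Submodule.subset_span ⟨t, rfl⟩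
  have hmon : ∀ S : Set (Rf F m), (∀ z ∈ S, ll dA dB z ∈ W) → ∀ z, Mon (Alone F m ∪ S) z →
      ll dA dB z ∈ W := by
    intro S hS z hz
    induction hz with
    | of x hx =>
      rcases hx with hx | hx
      · rw [(alone_pure hD hc hv hx).ll_eq hA hB]
        exact W.zero_mem
      · exact hS x hx
    | mul x y _ _ ihx ihy => exact ll_mul_mem hA hB ihx ihy
    | div x y _ _ ihx ihy => exact ll_div_mem hA hB ihx ihy
  have hall : ∀ t : Fin s, ll dA dB (h t) ∈ W := by
    intro t
    obtain ⟨t, ht⟩ := t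
    induction t using Nat.strong_induction_on with
    | _ t ih =>
      have hS : ∀ z ∈ {z | ∃ t' < (⟨t, ht⟩ : Fin s), z = h t'}, ll dA dB z ∈ W := by
        rintro z ⟨t', ht', rfl⟩
        exact ih t'.1 ht' t'.2
      rw [huv]
      refine ll_add_mem hA hB (hmon _ hS _ (hu _)) (hmon _ hS _ (hv' _)) ?_ ?_ ?_
      · exact hmem (Sum.inl (⟨t, ht⟩, 0))
      · exact hmem (Sum.inl (⟨t, ht⟩, 1))
      · rw [← huv]
        exact hmem (Sum.inl (⟨t, ht⟩, 2))
  have key : ∀ i k, hh dA dB (ent F m i k) ∈ W := by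
    intro i k
    rw [hh_eq hA hB]
    refine W.add_mem (W.smul_mem _ (hmon (Set.range h) ?_ _ (hout i k))) (W.smul_mem _ ?_)
    · rintro _ ⟨t, rfl⟩
      exact hall t
    · exact hmem (Sum.inr (i, k))
  have hr := rankLE_of_span hD hv g key
  refine hr.mono (le_of_eq ?_)
  simp only [Fintype.card_sum, Fintype.card_prod, Fintype.card_fin]
  ring

/-- a rational function of one variable and its derivative -/
theorem una_der {K : Type} [Field K] [Algebra F K] (z : K) (p q : Polynomial F) :
    ∃ p' q' : Polynomial F, ∀ D : K → K, IsDer D → (∀ c : F, D (algebraMap F K c) = 0) →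
      D (Polynomial.aeval z p / Polynomial.aeval z q) =
        (Polynomial.aeval z p' / Polynomial.aeval z q') * D z := by
  have hpoly : ∀ (D : K → K), IsDer D → (∀ c : F, D (algebraMap F K c) = 0) →
      ∀ p : Polynomial F, D (Polynomial.aeval z p) = Polynomial.aeval z p.derivative * D z := by
    intro D hD hc p
    induction p using Polynomial.induction_on' with
    | add p q hp hq => rw [map_add, hD.add, hp, hq, Polynomial.derivative_add, map_add, add_mul]
    | monomial n a =>
      induction n with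
      | zero => simp [hc]
      | succ n ih =>
        have e : Polynomial.monomial (n + 1) a = Polynomial.monomial n a * Polynomial.X := by
          rw [Polynomial.monomial_mul_X]
        rw [e, map_mul, hD.mul, ih, Polynomial.derivative_mul]
        simp only [Polynomial.derivative_X, mul_one, map_add, map_mul, Polynomial.aeval_X]
        ring
  by_cases hq : Polynomial.aeval z q = 0
  · refine ⟨0, 1, fun D hD hc => ?_⟩
    rw [hq, div_zero, hD.zero]
    simp
  · refine ⟨p.derivative * q - p * q.derivative, q ^ 2, fun D hD hc => ?_⟩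
    rw [der_div hD hq, hpoly D hD hc, hpoly D hD hc]
    simp only [map_sub, map_mul, map_pow]
    ring

/-- **Rational functions of one variable are free.** -/
theorem rank_of_freeUnary {s : ℕ} (h : FreeUnary F m s) : RankLE (Rf F m) m m m s := by
  classical
  obtain ⟨D, hD, hc, hv⟩ := exists_ders F m
  obtain ⟨h, hrun, hout⟩ := h
  choose u v hu hv' huv using hrun
  set dA : (Fin m × Fin m) → Rf F m → Rf F m := fun x => D (Sum.inl x) with hdA
  set dB : (Fin m × Fin m) → Rf F m → Rf F m := fun y => D (Sum.inr y) with hdB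
  have hA : ∀ x, IsDer (dA x) := fun x => hD _
  have hB : ∀ y, IsDer (dB y) := fun y => hD _
  set W : Submodule (Rf F m) ((Fin m × Fin m) × (Fin m × Fin m) → Rf F m) :=
    Submodule.span (Rf F m) (Set.range fun t => gg dA dB (h t)) with hW
  have huna : ∀ S : Set (Rf F m), (∀ z ∈ S, hh dA dB z ∈ W ∧ gg dA dB z ∈ W) →
      ∀ z ∈ Una F (Alone F m ∪ S), hh dA dB z ∈ W := by
    rintro S hS y ⟨z, hz, p, q, rfl⟩
    obtain ⟨p', q', h1⟩ := una_der z p q
    obtain ⟨p'', q'', h2⟩ := una_der z p' q'
    have e : hh dA dB (Polynomial.aeval z p / Polynomial.aeval z q) =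
        (Polynomial.aeval z p' / Polynomial.aeval z q') • hh dA dB z +
        (Polynomial.aeval z p'' / Polynomial.aeval z q'') • gg dA dB z := by
      funext w
      simp only [hh, gg, Pi.add_apply, Pi.smul_apply, smul_eq_mul]
      rw [h1 _ (hB w.2) (hc _), (hA w.1).mul, h2 _ (hA w.1) (hc _)]
      ring
    rw [e]
    rcases hz with hz | hz
    · rw [(alone_pure hD hc hv hz).hh_eq hA hB, (alone_pure hD hc hv hz).gg_eq hA hB]
      simp
    · exact W.add_mem (W.smul_mem _ (hS z hz).1) (W.smul_mem _ (hS z hz).2)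
  have hall : ∀ t : Fin s, hh dA dB (h t) ∈ W ∧ gg dA dB (h t) ∈ W := by
    intro t
    refine ⟨?_, Submodule.subset_span ⟨t, rfl⟩⟩
    obtain ⟨t, ht⟩ := t
    induction t using Nat.strong_induction_on with
    | _ t ih =>
      have hS : ∀ z ∈ {z | ∃ t' < (⟨t, ht⟩ : Fin s), z = h t'},
          hh dA dB z ∈ W ∧ gg dA dB z ∈ W := by
        rintro z ⟨t', ht', rfl⟩
        exact ⟨ih t'.1 ht' t'.2, Submodule.subset_span ⟨t', rfl⟩⟩
      rw [huv, hh_add hA hB]
      exact W.add_mem (huna _ hS _ (hu _)) (huna _ hS _ (hv' _))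
  have key : ∀ i k, hh dA dB (ent F m i k) ∈ W := by
    intro i k
    refine huna (Set.range h) ?_ _ (hout i k)
    rintro _ ⟨t, rfl⟩
    exact hall t
  have hr := rankLE_of_span hD hv h key
  rwa [Fintype.card_fin] at hr

end Pool.Agent.Q225.Add
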