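import Pool.Agent.W956.KF.Growth

set_option autoImplicit false
set_option linter.unusedSectionVars false

/-!
# Inverse and determinant by block elimination
-/

namespace Pool.Agent.Q225.Add

open Pool.Agent.W956.KF Matrix

section

variable {L : Type} [Field L]

/-- `T'` is obtained from `T` by `s` additions, multiplications and inversions. -/
inductive ReachD (T : Set L) : ℕ → Set L → Prop
  | refl : ReachD T 0 T
  | add {s : ℕ} {T' : Set L} {x y : L} : ReachD T s T' → x ∈ T' → y ∈ T' →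
      ReachD T (s + 1) (insert (x + y) T')
  | mul {s : ℕ} {T' : Set L} {x y : L} : ReachD T s T' → x ∈ T' → y ∈ T' →
      ReachD T (s + 1) (insert (x * y) T')
  | inv {s : ℕ} {T' : Set L} {x : L} : ReachD T s T' → x ∈ T' →
      ReachD T (s + 1) (insert x⁻¹ T')

theorem ReachD.subset {T T' : Set L} {s : ℕ} (h : ReachD T s T') : T ⊆ T' := by
  induction h with
  | refl => exact subset_rfl
  | add _ _ _ ih => exact ih.trans (Set.subset_insert _ _)
  | mul _ _ _ ih => exact ih.trans (Set.subset_insert _ _)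
  | inv _ _ ih => exact ih.trans (Set.subset_insert _ _)

theorem ReachD.trans {T T' T'' : Set L} {s s' : ℕ} (h : ReachD T s T') (h' : ReachD T' s' T'') :
    ReachD T (s + s') T'' := by
  induction h' with
  | refl => exact h
  | add _ hx hy ih => exact ih.add hx hy
  | mul _ hx hy ih => exact ih.mul hx hy
  | inv _ hx ih => exact ih.inv hx

theorem ReachD.of_reach {T T' : Set L} {s : ℕ} (h : Reach T s T') : ReachD T s T' := by
  induction h with
  | refl => exact .refl
  | add _ hx hy ih => exact ih.add hx hy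
  | mul _ hx hy ih => exact ih.mul hx hy

/-- with at most `s` operations -/
def ReachLe (T : Set L) (s : ℕ) (T' : Set L) : Prop := ∃ s' ≤ s, ReachD T s' T'

theorem ReachLe.subset {T T' : Set L} {s : ℕ} (h : ReachLe T s T') : T ⊆ T' := by
  obtain ⟨_, _, h⟩ := h
  exact h.subset

theorem ReachLe.trans {T T' T'' : Set L} {s s' : ℕ} (h : ReachLe T s T')
    (h' : ReachLe T' s' T'') : ReachLe T (s + s') T'' := by
  obtain ⟨a, ha, h⟩ := h
  obtain ⟨b, hb, h'⟩ := h'
  exact ⟨a + b, by omega, h.trans h'⟩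

theorem ReachLe.mono {T T' : Set L} {s s' : ℕ} (h : ReachLe T s T') (hs : s ≤ s') :
    ReachLe T s' T' := by
  obtain ⟨a, ha, h⟩ := h
  exact ⟨a, ha.trans hs, h⟩

theorem reachLe_of_cost {T P : Set L} {s : ℕ} (h : Cost T P s) :
    ∃ T', ReachLe T s T' ∧ P ⊆ T' := by
  obtain ⟨a, ha, T', h1, h2⟩ := h
  exact ⟨T', ⟨a, ha, .of_reach h1⟩, h2⟩

theorem reachLe_add {ι : Type} [Fintype ι] {T : Set L} {A B : Matrix ι ι L}
    (hA : ∀ i j, A i j ∈ T) (hB : ∀ i j, B i j ∈ T) :
    ∃ T', ReachLe T (Fintype.card ι ^ 2) T' ∧ ∀ i j, (A + B) i j ∈ T' := by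
  obtain ⟨T', h1, h2⟩ := reachLe_of_cost (Cost.range (T := T) (ι := ι × ι)
    (x := fun t => A t.1 t.2 + B t.1 t.2) (s := 1) fun t => Cost.add (hA _ _) (hB _ _))
  refine ⟨T', h1.mono (by rw [Fintype.card_prod, pow_two, mul_one]), fun i j => ?_⟩
  exact h2 ⟨(i, j), rfl⟩

theorem reachLe_neg {ι : Type} [Fintype ι] {T : Set L} (h0 : (-1 : L) ∈ T) {A : Matrix ι ι L}
    (hA : ∀ i j, A i j ∈ T) :
    ∃ T', ReachLe T (Fintype.card ι ^ 2) T' ∧ ∀ i j, (-A) i j ∈ T' := by
  obtain ⟨T', h1, h2⟩ := reachLe_of_cost (Cost.range (T := T) (ι := ι × ι)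
    (x := fun t => -1 * A t.1 t.2) (s := 1) fun t => Cost.mul h0 (hA _ _))
  refine ⟨T', h1.mono (by rw [Fintype.card_prod, pow_two, mul_one]), fun i j => ?_⟩
  have := h2 ⟨(i, j), rfl⟩
  simpa using this

theorem reachLe_mm {F : Type} [Field F] [Algebra F L] {ι : Type} [Fintype ι] {c : ℕ}
    (h : CostMM F ι c) {T : Set L} (hT : ∀ c : F, algebraMap F L c ∈ T) {A B : Matrix ι ι L}
    (hA : ∀ i j, A i j ∈ T) (hB : ∀ i j, B i j ∈ T) :
    ∃ T', ReachLe T c T' ∧ ∀ i j, (A * B) i j ∈ T' := by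
  obtain ⟨T', h1, h2⟩ := reachLe_of_cost (h L T hT A B hA hB)
  exact ⟨T', h1, fun i j => h2 ⟨i, j, rfl⟩⟩

end

/-- All principal minors are nonzero. -/
def Good {L : Type} [Field L] {ι : Type} (M : Matrix ι ι L) : Prop :=
  ∀ (κ : Type) [Fintype κ] [DecidableEq κ] (e : κ → ι), Function.Injective e →
    (M.submatrix e e).det ≠ 0

/-- Inverse and determinant of good matrices indexed by `ι` can be computed with `s` operations. -/
def CostInv (F : Type) [Field F] (ι : Type) [Fintype ι] [DecidableEq ι] (s : ℕ) : Prop :=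
  ∀ (L : Type) [Field L] [Algebra F L] (T : Set L), (∀ c : F, algebraMap F L c ∈ T) →
    ∀ M : Matrix ι ι L, (∀ i j, M i j ∈ T) → Good M →
      ∃ T', ReachLe T s T' ∧ (∀ i j, M⁻¹ i j ∈ T') ∧ M.det ∈ T'

theorem Good.det_ne_zero {L : Type} [Field L] {ι : Type} [Fintype ι] [DecidableEq ι]
    {M : Matrix ι ι L} (h : Good M) : M.det ≠ 0 := by
  have := h ι id Function.injective_id
  rwa [Matrix.submatrix_id_id] at this

theorem Good.block {L : Type} [Field L] {ι κ : Type} {M : Matrix (ι ⊕ κ) (ι ⊕ κ) L}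
    (h : Good M) : Good M.toBlocks₁₁ := by
  intro τ _ _ e he
  exact h τ (Sum.inl ∘ e) (Sum.inl_injective.comp he)

theorem Good.schur {L : Type} [Field L] {ι κ : Type} [Fintype ι] [DecidableEq ι]
    {M : Matrix (ι ⊕ κ) (ι ⊕ κ) L} (h : Good M) :
    Good (M.toBlocks₂₂ - M.toBlocks₂₁ * M.toBlocks₁₁⁻¹ * M.toBlocks₁₂) := by
  intro τ _ _ e he
  have hA : M.toBlocks₁₁.det ≠ 0 := h.block.det_ne_zero
  have h1 := h (ι ⊕ τ) (Sum.map id e) (Function.injective_id.sumMap he)
  have e1 : M.submatrix (Sum.map id e) (Sum.map id e) =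
      fromBlocks M.toBlocks₁₁ (M.toBlocks₁₂.submatrix id e) (M.toBlocks₂₁.submatrix e id)
        (M.toBlocks₂₂.submatrix e e) := by
    ext (i | i) (j | j) <;> rfl
  let _ := Matrix.invertibleOfIsUnitDet _ (isUnit_iff_ne_zero.2 hA)
  rw [e1, det_fromBlocks₁₁, invOf_eq_nonsing_inv] at h1
  have e2 : (M.toBlocks₂₂ - M.toBlocks₂₁ * M.toBlocks₁₁⁻¹ * M.toBlocks₁₂).submatrix e e =
      M.toBlocks₂₂.submatrix e e - M.toBlocks₂₁.submatrix e id * M.toBlocks₁₁⁻¹ *
        M.toBlocks₁₂.submatrix id e := by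
    ext i j
    simp [Matrix.mul_apply, Matrix.submatrix_apply]
  rw [e2]
  exact right_ne_zero_of_mul h1

theorem costInv_one (F : Type) [Field F] (ι : Type) [Fintype ι] [DecidableEq ι] [Unique ι] :
    CostInv F ι 1 := by
  intro L _ _ T hT M hM hG
  have h0 : M.det = M default default := Matrix.det_unique M
  refine ⟨insert (M default default)⁻¹ T, ⟨1, le_rfl, ReachD.refl.inv (hM _ _)⟩, ?_, ?_⟩
  · intro i j
    left
    have h1 : M⁻¹ i j = (M default default)⁻¹ := by
      rw [Matrix.inv_def, Matrix.smul_apply, h0, Ring.inverse_eq_inv', Matrix.adjugate_subsingleton]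
      rw [Subsingleton.elim i j]
      simp
    exact h1
  · right
    rw [h0]
    exact hM _ _

theorem CostInv.step {F : Type} [Field F] {ι : Type} [Fintype ι] [DecidableEq ι] {s c : ℕ}
    (h : CostInv F ι s) (hc : CostMM F ι c) :
    CostInv F (ι ⊕ ι) (2 * s + 6 * c + 6 * Fintype.card ι ^ 2 + 1) := by
  intro L _ _ T0 hT0 M hM hG
  set A := M.toBlocks₁₁ with hAd
  set B := M.toBlocks₁₂ with hBd
  set C := M.toBlocks₂₁ with hCd
  set D := M.toBlocks₂₂ with hDd
  have hMb : M = fromBlocks A B C D := (fromBlocks_toBlocks M).symm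
  have hA0 : ∀ i j, A i j ∈ T0 := fun i j => hM _ _
  have hB0 : ∀ i j, B i j ∈ T0 := fun i j => hM _ _
  have hC0 : ∀ i j, C i j ∈ T0 := fun i j => hM _ _
  have hD0 : ∀ i j, D i j ∈ T0 := fun i j => hM _ _
  have hn1 : (-1 : L) ∈ T0 := by simpa using hT0 (-1)
  obtain ⟨T1, r1, hAi, hdA⟩ := h L T0 hT0 A hA0 hG.block
  have s1 := r1.subset
  obtain ⟨T2, r2, hE⟩ := reachLe_mm hc (fun c => s1 (hT0 c)) hAi (fun i j => s1 (hB0 i j))
  have s2 := s1.trans r2.subset
  obtain ⟨T3, r3, hH⟩ := reachLe_mm hc (fun c => s2 (hT0 c)) (fun i j => s2 (hC0 i j))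
    (fun i j => r2.subset (hAi i j))
  have s3 := s2.trans r3.subset
  obtain ⟨T4, r4, hCE⟩ := reachLe_mm hc (fun c => s3 (hT0 c)) (fun i j => s3 (hC0 i j))
    (fun i j => r3.subset (hE i j))
  have s4 := s3.trans r4.subset
  obtain ⟨T5, r5, hnCE⟩ := reachLe_neg (s4 hn1) hCE
  have s5 := s4.trans r5.subset
  obtain ⟨T6, r6, hS⟩ := reachLe_add (fun i j => s5 (hD0 i j)) hnCE
  have s6 := s5.trans r6.subset
  set S := D + -(C * (A⁻¹ * B)) with hSd
  have hS' : S = D - C * A⁻¹ * B := by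
    rw [hSd, ← sub_eq_add_neg, Matrix.mul_assoc]
  obtain ⟨T7, r7, hSi, hdS⟩ := h L T6 (fun c => s6 (hT0 c)) S hS (by rw [hS']; exact hG.schur)
  have s7 := s6.trans r7.subset
  have hE7 : ∀ i j, (A⁻¹ * B) i j ∈ T7 := fun i j =>
    r7.subset (r6.subset (r5.subset (r4.subset (r3.subset (hE i j)))))
  have hH7 : ∀ i j, (C * A⁻¹) i j ∈ T7 := fun i j =>
    r7.subset (r6.subset (r5.subset (r4.subset (hH i j))))
  have hAi7 : ∀ i j, A⁻¹ i j ∈ T7 := fun i j =>
    r7.subset (r6.subset (r5.subset (r4.subset (r3.subset (r2.subset (hAi i j))))))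
  have hdA7 : A.det ∈ T7 :=
    r7.subset (r6.subset (r5.subset (r4.subset (r3.subset (r2.subset hdA)))))
  obtain ⟨T8, r8, hES⟩ := reachLe_mm hc (fun c => s7 (hT0 c)) hE7 hSi
  have s8 := s7.trans r8.subset
  obtain ⟨T9, r9, hSH⟩ := reachLe_mm hc (fun c => s8 (hT0 c)) (fun i j => r8.subset (hSi i j))
    (fun i j => r8.subset (hH7 i j))
  have s9 := s8.trans r9.subset
  obtain ⟨T10, r10, hESH⟩ := reachLe_mm hc (fun c => s9 (hT0 c))
    (fun i j => r9.subset (r8.subset (hE7 i j))) hSH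
  have s10 := s9.trans r10.subset
  obtain ⟨T11, r11, hX⟩ := reachLe_add
    (fun i j => r10.subset (r9.subset (r8.subset (hAi7 i j)))) hESH
  have s11 := s10.trans r11.subset
  obtain ⟨T12, r12, hnES⟩ := reachLe_neg (s11 hn1)
    (fun i j => r11.subset (r10.subset (r9.subset (hES i j))))
  have s12 := s11.trans r12.subset
  obtain ⟨T13, r13, hnSH⟩ := reachLe_neg (s12 hn1)
    (fun i j => r12.subset (r11.subset (r10.subset (hSH i j))))
  have hdA13 : A.det ∈ T13 := r13.subset (r12.subset (r11.subset (r10.subset (r9.subset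
    (r8.subset hdA7)))))
  have hdS13 : S.det ∈ T13 := r13.subset (r12.subset (r11.subset (r10.subset (r9.subset
    (r8.subset hdS)))))
  have r14 : ReachLe T13 1 (insert (A.det * S.det) T13) :=
    ⟨1, le_rfl, ReachD.refl.mul hdA13 hdS13⟩
  have hsub : T13 ⊆ insert (A.det * S.det) T13 := Set.subset_insert _ _
  have hA1 : A.det ≠ 0 := hG.block.det_ne_zero
  let iA := Matrix.invertibleOfIsUnitDet _ (isUnit_iff_ne_zero.2 hA1)
  have hdet : M.det = A.det * S.det := by
    rw [hMb, det_fromBlocks₁₁, invOf_eq_nonsing_inv, hS']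
  have hS1 : S.det ≠ 0 := by
    have := hG.det_ne_zero
    rw [hdet] at this
    exact right_ne_zero_of_mul this
  let iS : Invertible (D - C * ⅟A * B) := Matrix.invertibleOfIsUnitDet _
    (isUnit_iff_ne_zero.2 (by rw [invOf_eq_nonsing_inv, ← hS']; exact hS1))
  let iM : Invertible (fromBlocks A B C D) := Matrix.fromBlocks₁₁Invertible A B C D
  have hinv : M⁻¹ = fromBlocks (A⁻¹ + A⁻¹ * B * (S⁻¹ * (C * A⁻¹))) (-(A⁻¹ * B * S⁻¹))
      (-(S⁻¹ * (C * A⁻¹))) S⁻¹ := by
    have hSi' : ⅟(D - C * ⅟A * B) = S⁻¹ := by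
      rw [invOf_eq_nonsing_inv, invOf_eq_nonsing_inv A, ← hS']
    rw [hMb, ← invOf_eq_nonsing_inv, Matrix.invOf_fromBlocks₁₁_eq, hSi', invOf_eq_nonsing_inv A]
    simp only [Matrix.mul_assoc]
  refine ⟨insert (A.det * S.det) T13, ?_, ?_, ?_⟩
  · exact (r1.trans (r2.trans (r3.trans (r4.trans (r5.trans (r6.trans (r7.trans (r8.trans
      (r9.trans (r10.trans (r11.trans (r12.trans (r13.trans r14))))))))))))).mono
      (by omega)
  · rw [hinv]
    rintro (i | i) (j | j)
    · exact hsub (r13.subset (r12.subset (hX i j)))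
    · exact hsub (r13.subset (hnES i j))
    · exact hsub (hnSH i j)
    · exact hsub (r13.subset (r12.subset (r11.subset (r10.subset (r9.subset
        (r8.subset (hSi i j)))))))
  · rw [hdet]
    exact Set.mem_insert _ _

theorem CostInv.reindex {F : Type} [Field F] {ι ι' : Type} [Fintype ι] [DecidableEq ι]
    [Fintype ι'] [DecidableEq ι'] (e : ι' ≃ ι) {s : ℕ} (h : CostInv F ι s) : CostInv F ι' s := by
  intro L _ _ T hT M hM hG
  obtain ⟨T', h1, h2, h3⟩ := h L T hT (M.submatrix e.symm e.symm) (fun i j => hM _ _)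
    (fun κ _ _ f hf => hG κ (e.symm ∘ f) (e.symm.injective.comp hf))
  refine ⟨T', h1, fun i j => ?_, ?_⟩
  · have := h2 (e i) (e j)
    rw [Matrix.inv_submatrix_equiv] at this
    simpa using this
  · rwa [Matrix.det_submatrix_equiv_self] at h3

theorem CostInv.mono {F : Type} [Field F] {ι : Type} [Fintype ι] [DecidableEq ι] {s s' : ℕ}
    (h : CostInv F ι s) (hs : s ≤ s') : CostInv F ι s' := by
  intro L _ _ T hT M hM hG
  obtain ⟨T', h1, h2⟩ := h L T hT M hM hG
  exact ⟨T', h1.mono hs, h2⟩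

end Pool.Agent.Q225.Add
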