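import Pool.Agent.Q225.Add.Recur
import Pool.Agent.Q225.Add.InvTrace
import Pool.Agent.Q225.Add.Circ

set_option autoImplicit false
set_option linter.unusedSectionVars false

/-!
# Upper bounds for the numbers of additions
-/

namespace Pool.Agent.Q225.Add

open MvPolynomial Pool.Agent.H522R2 Pool.Agent.H522R2.Circuit Pool.Agent.W956.KF Matrix

theorem costMM_sizeMM (F : Type) [Field F] (m : ℕ) : CostMM F (Fin m) (sizeMM F m) := by
  intro R _ _ T hT A B hA hB
  let φ : MvPolynomial (Vr m) F →+* R :=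
    (MvPolynomial.aeval (Sum.elim (fun x => A x.1 x.2) fun x => B x.1 x.2)).toRingHom
  refine ((cost_MM_sizeMM F m).map φ).mono ?_ ?_ le_rfl
  · rintro _ ⟨_, ⟨v, rfl⟩ | ⟨c, rfl⟩, rfl⟩
    · rcases v with v | v
      · simpa [φ] using hA v.1 v.2
      · simpa [φ] using hB v.1 v.2
    · simpa [φ] using hT c
  · rintro _ ⟨i, j, rfl⟩
    refine ⟨_, ⟨(i, j), rfl⟩, ?_⟩
    simp [φ, entryMM, Matrix.mul_apply]

/-- costs for the sizes `2 ^ k` -/
noncomputable def invCost (F : Type) [Field F] : ℕ → ℕ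
  | 0 => 1
  | k + 1 => 2 * invCost F k + 6 * sizeMM F (2 ^ k) + 6 * (2 ^ k) ^ 2 + 1

theorem costInv_pow (F : Type) [Field F] (k : ℕ) : ∀ (ι : Type) [Fintype ι] [DecidableEq ι],
    Fintype.card ι = 2 ^ k → CostInv F ι (invCost F k) := by
  induction k with
  | zero =>
    intro ι _ _ hι
    obtain ⟨i0, hi0⟩ := Fintype.card_eq_one_iff.1 (by simpa using hι)
    let _ : Unique ι := ⟨⟨i0⟩, hi0⟩
    exact costInv_one F ι
  | succ k ih =>
    intro ι _ _ hι
    have e : ι ≃ Fin (2 ^ k) ⊕ Fin (2 ^ k) := Fintype.equivOfCardEq (by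
      rw [hι, Fintype.card_sum, Fintype.card_fin, pow_succ]
      ring)
    have h1 := ((ih (Fin (2 ^ k)) (by simp)).step (costMM_sizeMM F (2 ^ k))).reindex e
    rw [Fintype.card_fin] at h1
    exact h1

theorem two_le_omegaMM (F : Type) [Field F] : 2 ≤ Pool.Agent.H826R3.SM.omegaMM F := by
  rw [← omega_eq]
  unfold omega growth
  refine le_csInf ?_ ?_
  · obtain ⟨τ, D, hD⟩ := Pool.Agent.H826R3.SM.omega_set_nonempty (F := F)
    refine ⟨τ, D, fun m => ?_⟩
    show ((trank F m m m : ℕ) : ℝ) ≤ _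
    rw [trank_eq_rk]
    exact hD m
  · rintro τ ⟨D, hD⟩
    by_contra hcon
    push Not at hcon
    have hlim : Filter.Tendsto (fun q : ℕ => (q : ℝ) ^ (2 - τ)) Filter.atTop Filter.atTop :=
      (tendsto_rpow_atTop (by linarith)).comp tendsto_natCast_atTop_atTop
    obtain ⟨m, hm1, hm2⟩ := ((hlim.eventually_gt_atTop D).and
      (Filter.eventually_ge_atTop 1)).exists
    have hm0 : (0 : ℝ) < m := by exact_mod_cast hm2
    have h1 : (m : ℝ) ^ 2 ≤ (trank F m m m : ℝ) := by exact_mod_cast sq_le_trank F m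
    have h2 := h1.trans (hD m)
    have h4 : (m : ℝ) ^ (2 - τ) * (m : ℝ) ^ τ = (m : ℝ) ^ 2 := by
      rw [← Real.rpow_add hm0, sub_add_cancel, Real.rpow_two]
    have h6 := mul_lt_mul_of_pos_right hm1 (Real.rpow_pos_of_pos hm0 τ)
    rw [h4] at h6
    linarith

theorem invCost_upper {F : Type} [Field F] {τ : ℝ} (hτ : Pool.Agent.H826R3.SM.omegaMM F < τ) :
    ∃ D : ℝ, 0 ≤ D ∧ ∀ k : ℕ, (invCost F k : ℝ) ≤ D * ((2 : ℝ) ^ k) ^ τ := by
  obtain ⟨C, hC⟩ := sizeMM_upper hτ
  have h2 : 2 ≤ τ := (two_le_omegaMM F).trans hτ.le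
  set D := 3 * |C| + 4 with hD
  have hC0 := abs_nonneg C
  refine ⟨D, by positivity, fun k => ?_⟩
  induction k with
  | zero =>
    simp only [invCost, pow_zero, Real.one_rpow, mul_one, Nat.cast_one]
    linarith
  | succ k ih =>
    set x : ℝ := ((2 : ℝ) ^ k) ^ τ with hx
    have hp : (1 : ℝ) ≤ (2 : ℝ) ^ k := one_le_pow₀ (by norm_num)
    have hx1 : ((2 : ℝ) ^ k) ^ (2 : ℕ) ≤ x := by
      rw [hx, ← Real.rpow_two]
      exact Real.rpow_le_rpow_of_exponent_le hp h2
    have hx0 : (1 : ℝ) ≤ x := le_trans (one_le_pow₀ hp) hx1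
    have h4 : (4 : ℝ) ≤ (2 : ℝ) ^ τ := by
      have := Real.rpow_le_rpow_of_exponent_le (x := 2) (by norm_num) h2
      rw [Real.rpow_two] at this
      linarith
    have e1 : ((2 : ℝ) ^ (k + 1)) ^ τ = x * (2 : ℝ) ^ τ := by
      rw [hx, pow_succ, Real.mul_rpow (by positivity) (by norm_num)]
    have h5 : (sizeMM F (2 ^ k) : ℝ) ≤ |C| * x := by
      have := hC (2 ^ k)
      push_cast at this
      exact this.trans (mul_le_mul_of_nonneg_right (le_abs_self C) (by linarith))
    rw [e1]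
    simp only [invCost]
    push_cast
    have h6 : D * x * 4 ≤ D * x * (2 : ℝ) ^ τ :=
      mul_le_mul_of_nonneg_left h4 (by positivity)
    have h7 : D * x = 3 * (|C| * x) + 4 * x := by rw [hD]; ring
    nlinarith

section generic

variable (F : Type) [Field F]

/-- matrices of polynomials which specialize to the identity matrix are good -/
theorem good_of_eval {V ι : Type} [DecidableEq ι] (M : Matrix ι ι (MvPolynomial V F)) (p : V → F)
    (h : M.map (MvPolynomial.eval p) = 1) :
    Good (M.map (algebraMap (MvPolynomial V F) (Rt F V))) := by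
  intro κ _ _ e he h0
  have h1 : (M.submatrix e e).det = 0 := by
    have e1 : ((M.map (algebraMap (MvPolynomial V F) (Rt F V))).submatrix e e).det =
        algebraMap (MvPolynomial V F) (Rt F V) (M.submatrix e e).det := by
      rw [RingHom.map_det]
      rfl
    rw [e1] at h0
    exact (IsFractionRing.injective (MvPolynomial V F) (Rt F V)) (h0.trans (map_zero _).symm)
  have h2 : MvPolynomial.eval p (M.submatrix e e).det = 1 := by
    rw [RingHom.map_det]
    have e2 : (MvPolynomial.eval p).mapMatrix (M.submatrix e e) =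
        (M.map (MvPolynomial.eval p)).submatrix e e := rfl
    rw [e2, h, Matrix.submatrix_one e he, Matrix.det_one]
  rw [h1, map_zero] at h2
  exact zero_ne_one h2

/-- the generic matrix, enlarged by an identity matrix -/
noncomputable def padGen (n l : ℕ) :
    Matrix (Fin n ⊕ Fin l) (Fin n ⊕ Fin l) (MvPolynomial (Fin n × Fin n) F) :=
  fromBlocks (Matrix.of fun i j => X (i, j)) 0 0 1

theorem padGen_map (n l : ℕ) : (padGen F n l).map
    (algebraMap (MvPolynomial (Fin n × Fin n) F) (Rt F (Fin n × Fin n))) =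
      fromBlocks (gen F n) 0 0 1 := by
  ext (i | i) (j | j)
  · simp [padGen, gen, gz]
  · simp [padGen]
  · simp [padGen]
  · simp only [padGen, Matrix.map_apply, fromBlocks_apply₂₂, Matrix.one_apply]
    split_ifs <;> simp

theorem good_padGen (n l : ℕ) :
    Good (fromBlocks (gen F n) 0 0 (1 : Matrix (Fin l) (Fin l) (Rt F (Fin n × Fin n)))) := by
  rw [← padGen_map]
  refine good_of_eval F _ (fun v => if v.1 = v.2 then 1 else 0) ?_
  ext (i | i) (j | j)
  · simp [padGen, Matrix.one_apply]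
  · simp [padGen]
  · simp [padGen]
  · simp only [padGen, Matrix.map_apply, fromBlocks_apply₂₂, Matrix.one_apply, Sum.inr.injEq]
    split_ifs <;> simp

theorem reach_gen {n k : ℕ} (hn : n ≤ 2 ^ k) : ∃ T', ReachLe (Given F (Fin n × Fin n))
    (invCost F k) T' ∧ (∀ z ∈ invSet F n, z ∈ T') ∧ ∀ z ∈ detSet F n, z ∈ T' := by
  have h := costInv_pow F k (Fin n ⊕ Fin (2 ^ k - n)) (by
    rw [Fintype.card_sum, Fintype.card_fin, Fintype.card_fin]
    omega)
  have hc : ∀ c : F, algebraMap F (Rt F (Fin n × Fin n)) c ∈ Given F (Fin n × Fin n) :=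
    fun c => Or.inl ⟨c, rfl⟩
  have h0 : (0 : Rt F (Fin n × Fin n)) ∈ Given F (Fin n × Fin n) := by simpa using hc 0
  have h1 : (1 : Rt F (Fin n × Fin n)) ∈ Given F (Fin n × Fin n) := by simpa using hc 1
  obtain ⟨T', h1, h2, h3⟩ := h (Rt F (Fin n × Fin n)) (Given F (Fin n × Fin n)) hc
    (fromBlocks (gen F n) 0 0 1) (by
      rintro (i | i) (j | j)
      · exact Or.inr ⟨(i, j), rfl⟩
      · exact h0
      · exact h0
      · simp only [fromBlocks_apply₂₂, Matrix.one_apply]
        split_ifs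
        · exact h1
        · exact h0) (good_padGen F n _)
  refine ⟨T', h1, ?_, ?_⟩
  · rintro _ ⟨⟨i, j⟩, rfl⟩
    have e : (fromBlocks (gen F n) 0 0
        (1 : Matrix (Fin (2 ^ k - n)) (Fin (2 ^ k - n)) (Rt F (Fin n × Fin n))))⁻¹ =
        fromBlocks (gen F n)⁻¹ 0 0 1 := by
      refine Matrix.inv_eq_right_inv ?_
      rw [fromBlocks_multiply, Matrix.mul_nonsing_inv _ (isUnit_det_gen F n)]
      simp
    have := h2 (.inl i) (.inl j)
    rw [e] at this
    exact this
  · rintro _ rfl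
    rw [det_fromBlocks_zero₂₁, det_one, mul_one] at h3
    exact h3

end generic

end Pool.Agent.Q225.Add
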