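import Pool.Agent.Q225.Add.RecurUp

set_option autoImplicit false
set_option linter.unusedSectionVars false

/-!
# From sequences of operations to sequences of additions
-/

namespace Pool.Agent.Q225.Add

open MvPolynomial Pool.Agent.H522R2 Pool.Agent.H522R2.Circuit Pool.Agent.W956.KF

section

variable {K : Type} [Field K]

/-- a sequence of additions, products free -/
def RP (B : Set K) {s : ℕ} (h : Fin s → K) : Prop :=
  ∀ t, ∃ u v, Mon (B ∪ {z | ∃ t' < t, z = h t'}) u ∧ Mon (B ∪ {z | ∃ t' < t, z = h t'}) v ∧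
    h t = u + v

theorem range_snoc_sub {s : ℕ} (h : Fin s → K) (x : K) :
    Set.range h ⊆ Set.range (Fin.snoc h x : Fin (s + 1) → K) := by
  rintro _ ⟨t, rfl⟩
  exact ⟨t.castSucc, by simp⟩

theorem mem_snoc {s : ℕ} (h : Fin s → K) (x : K) :
    x ∈ Set.range (Fin.snoc h x : Fin (s + 1) → K) := ⟨Fin.last _, by simp⟩

theorem RP.snoc {B : Set K} {s : ℕ} {h : Fin s → K} (hr : RP B h) {u v : K}
    (hu : Mon (B ∪ Set.range h) u) (hv : Mon (B ∪ Set.range h) v) :
    RP B (Fin.snoc h (u + v) : Fin (s + 1) → K) := by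
  intro t
  refine Fin.lastCases ?_ (fun t => ?_) t
  · refine ⟨u, v, Mon.mono ?_ hu, Mon.mono ?_ hv, by simp⟩ <;>
    · refine Set.union_subset_union_right _ ?_
      rintro z ⟨t', rfl⟩
      exact ⟨t'.castSucc, Fin.castSucc_lt_last t', by simp⟩
  · obtain ⟨u', v', h1, h2, h3⟩ := hr t
    refine ⟨u', v', Mon.mono ?_ h1, Mon.mono ?_ h2, by simpa using h3⟩ <;>
    · refine Set.union_subset_union_right _ ?_
      rintro z ⟨t', ht', rfl⟩
      exact ⟨t'.castSucc, Fin.castSucc_lt_castSucc_iff.2 ht', by simp⟩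

theorem runP_of_reachD {B T : Set K} {s : ℕ} (hone : (1 : K) ∈ B) (h : ReachD B s T) :
    ∃ s' ≤ s, ∃ h : Fin s' → K, RP B h ∧ ∀ z ∈ T, Mon (B ∪ Set.range h) z := by
  induction h with
  | refl =>
    exact ⟨0, le_rfl, fun t => t.elim0, fun t => t.elim0, fun z hz => .of _ (Or.inl hz)⟩
  | @add s T x y _ hx hy ih =>
    obtain ⟨s', hs', h, hr, hT⟩ := ih
    refine ⟨s' + 1, by omega, _, hr.snoc (hT x hx) (hT y hy), ?_⟩
    rintro z (rfl | hz)
    · exact .of _ (Or.inr (mem_snoc _ _))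
    · exact Mon.mono (Set.union_subset_union_right _ (range_snoc_sub _ _)) (hT z hz)
  | @mul s T x y _ hx hy ih =>
    obtain ⟨s', hs', h, hr, hT⟩ := ih
    refine ⟨s', by omega, h, hr, ?_⟩
    rintro z (rfl | hz)
    · exact .mul _ _ (hT x hx) (hT y hy)
    · exact hT z hz
  | @inv s T x _ hx ih =>
    obtain ⟨s', hs', h, hr, hT⟩ := ih
    refine ⟨s', by omega, h, hr, ?_⟩
    rintro z (rfl | hz)
    · have := Mon.div 1 x (.of _ (Or.inl hone)) (hT x hx)
      rwa [one_div] at this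
    · exact hT z hz

variable {F : Type} [Field F] [Algebra F K]

/-- a sequence of additions, functions of one variable free -/
def RU (F : Type) [Field F] [Algebra F K] (B : Set K) {s : ℕ} (h : Fin s → K) : Prop :=
  ∀ t, ∃ u v, u ∈ Una F (B ∪ {z | ∃ t' < t, z = h t'}) ∧ v ∈ Una F (B ∪ {z | ∃ t' < t, z = h t'}) ∧
    h t = u + v

theorem RU.snoc {B : Set K} {s : ℕ} {h : Fin s → K} (hr : RU F B h) {u v : K}
    (hu : u ∈ Una F (B ∪ Set.range h)) (hv : v ∈ Una F (B ∪ Set.range h)) :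
    RU F B (Fin.snoc h (u + v) : Fin (s + 1) → K) := by
  intro t
  refine Fin.lastCases ?_ (fun t => ?_) t
  · refine ⟨u, v, Una.mono ?_ hu, Una.mono ?_ hv, by simp⟩ <;>
    · refine Set.union_subset_union_right _ ?_
      rintro z ⟨t', rfl⟩
      exact ⟨t'.castSucc, Fin.castSucc_lt_last t', by simp⟩
  · obtain ⟨u', v', h1, h2, h3⟩ := hr t
    refine ⟨u', v', Una.mono ?_ h1, Una.mono ?_ h2, by simpa using h3⟩ <;>
    · refine Set.union_subset_union_right _ ?_
      rintro z ⟨t', ht', rfl⟩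
      exact ⟨t'.castSucc, Fin.castSucc_lt_castSucc_iff.2 ht', by simp⟩

theorem inv_mem_una {S : Set K} {x : K} (hx : x ∈ Una F S) : x⁻¹ ∈ Una F S := by
  obtain ⟨z, hz, p, q, rfl⟩ := hx
  exact ⟨z, hz, q, p, inv_div _ _⟩

theorem runU_of_reachD (h2 : (2 : F) ≠ 0) {B T : Set K} {s : ℕ} (h : ReachD B s T) :
    ∃ s' ≤ 3 * s, ∃ h : Fin s' → K, RU F B h ∧ ∀ z ∈ T, z ∈ Una F (B ∪ Set.range h) := by
  have h2' : (2 : K) ≠ 0 := by
    have : algebraMap F K 2 ≠ 0 := by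
      rw [Ne, map_eq_zero]
      exact h2
    rwa [map_ofNat] at this
  induction h with
  | refl =>
    exact ⟨0, by simp, fun t => t.elim0, fun t => t.elim0, fun z hz => mem_una (Or.inl hz)⟩
  | @add s T x y _ hx hy ih =>
    obtain ⟨s', hs', h, hr, hT⟩ := ih
    refine ⟨s' + 1, by omega, _, hr.snoc (hT x hx) (hT y hy), ?_⟩
    rintro z (rfl | hz)
    · exact mem_una (Or.inr (mem_snoc _ _))
    · exact Una.mono (Set.union_subset_union_right _ (range_snoc_sub _ _)) (hT z hz)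
  | @inv s T x _ hx ih =>
    obtain ⟨s', hs', h, hr, hT⟩ := ih
    refine ⟨s', by omega, h, hr, ?_⟩
    rintro z (rfl | hz)
    · exact inv_mem_una (hT x hx)
    · exact hT z hz
  | @mul s T x y _ hx hy ih =>
    obtain ⟨s', hs', h, hr, hT⟩ := ih
    have r1 := hr.snoc (hT x hx) (hT y hy)
    have s1 : B ∪ Set.range h ⊆ B ∪ Set.range (Fin.snoc h (x + y) : Fin (s' + 1) → K) :=
      Set.union_subset_union_right _ (range_snoc_sub _ _)
    have r2 := r1.snoc (u := (x + y) ^ 2) (v := -(x ^ 2))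
      (sq_mem_una (Or.inr (mem_snoc _ _)))
      (Una.mono s1 (neg_sq_mem_una (hT x hx)))
    have s2 := Set.union_subset_union_right B (range_snoc_sub
      (Fin.snoc h (x + y) : Fin (s' + 1) → K) ((x + y) ^ 2 + -(x ^ 2)))
    have r3 := r2.snoc (u := (x + y) ^ 2 + -(x ^ 2)) (v := -(y ^ 2))
      (mem_una (Or.inr (mem_snoc _ _)))
      (Una.mono (s1.trans s2) (neg_sq_mem_una (hT y hy)))
    refine ⟨s' + 1 + 1 + 1, by omega, _, r3, ?_⟩
    have hsub : Set.range h ⊆ Set.range (Fin.snoc (Fin.snoc (Fin.snoc h (x + y) :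
        Fin (s' + 1) → K) ((x + y) ^ 2 + -(x ^ 2)) : Fin (s' + 1 + 1) → K)
        ((x + y) ^ 2 + -(x ^ 2) + -(y ^ 2)) : Fin (s' + 1 + 1 + 1) → K) :=
      (range_snoc_sub _ _).trans ((range_snoc_sub _ _).trans (range_snoc_sub _ _))
    rintro z (rfl | hz)
    · have e : x * y = ((x + y) ^ 2 + -(x ^ 2) + -(y ^ 2)) / 2 := by
        field_simp
        ring
      rw [e]
      exact half_mem_una h2 (Or.inr (mem_snoc _ _))
    · exact Una.mono (Set.union_subset_union_right _ hsub) (hT z hz)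

end

section

variable {F : Type} [Field F] {V : Type}

theorem compP_of_reach {T : Set (Rt F V)} {s : ℕ} (h : ReachLe (Given F V) s T)
    {Z : Set (Rt F V)} (hZ : ∀ z ∈ Z, z ∈ T) : ∃ s' ≤ s, CompP F V Z s' := by
  obtain ⟨a, ha, h⟩ := h
  have hone : (1 : Rt F V) ∈ Given F V := Or.inl ⟨1, map_one _⟩
  obtain ⟨s', hs', g, h1, h2⟩ := runP_of_reachD hone h
  exact ⟨s', hs'.trans ha, g, h1, fun z hz => h2 z (hZ z hz)⟩

theorem compU_of_reach (h2 : (2 : F) ≠ 0) {T : Set (Rt F V)} {s : ℕ}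
    (h : ReachLe (Given F V) s T) {Z : Set (Rt F V)} (hZ : ∀ z ∈ Z, z ∈ T) :
    ∃ s' ≤ 3 * s, CompU F V Z s' := by
  obtain ⟨a, ha, h⟩ := h
  obtain ⟨s', hs', g, h1, h3⟩ := runU_of_reachD h2 h
  exact ⟨s', by omega, g, h1, fun z hz => h3 z (hZ z hz)⟩

theorem reach_trace (F : Type) [Field F] (m : ℕ) : ∃ T, ReachLe (Given F (Fin 3 × Fin m × Fin m))
    (sizeMM F m + 2 * m ^ 2) T ∧ ∀ z ∈ traceSet F m, z ∈ T := by
  have hc : ∀ c : F, algebraMap F (Rt F (Fin 3 × Fin m × Fin m)) c ∈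
      Given F (Fin 3 × Fin m × Fin m) := fun c => Or.inl ⟨c, rfl⟩
  obtain ⟨T1, r1, h1⟩ := reachLe_mm (costMM_sizeMM F m) hc
    (A := Matrix.of fun i j => gz F (Fin 3 × Fin m × Fin m) (0, i, j))
    (B := Matrix.of fun j k => gz F (Fin 3 × Fin m × Fin m) (1, j, k))
    (fun i j => Or.inr ⟨_, rfl⟩) (fun i j => Or.inr ⟨_, rfl⟩)
  have h0 : (0 : Rt F (Fin 3 × Fin m × Fin m)) ∈ T1 := r1.subset (by simpa using hc 0)
  obtain ⟨T2, r2, h2⟩ := reachLe_of_cost (Cost.sum_mul (T := T1) h0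
    (ι := Fin m × Fin m) (fun t => (Matrix.of (fun i j => gz F (Fin 3 × Fin m × Fin m) (0, i, j)) *
      Matrix.of fun j k => gz F (Fin 3 × Fin m × Fin m) (1, j, k)) t.1 t.2)
    (fun t => gz F (Fin 3 × Fin m × Fin m) (2, t.2, t.1)) (fun t => h1 _ _)
    (fun t => r1.subset (Or.inr ⟨_, rfl⟩)))
  refine ⟨T2, ?_, ?_⟩
  · refine (r1.trans r2).mono ?_
    rw [Fintype.card_prod, Fintype.card_fin, pow_two]
  · rintro _ rfl
    refine h2 ?_
    rw [Set.mem_singleton_iff, Fintype.sum_prod_type]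
    refine Finset.sum_congr rfl fun i _ => ?_
    rw [Finset.sum_comm]
    refine Finset.sum_congr rfl fun k _ => ?_
    simp only [Matrix.mul_apply, Matrix.of_apply, Finset.sum_mul]

end

end Pool.Agent.Q225.Add
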