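import Pool.Agent.Q225.Add.Core

set_option autoImplicit false
set_option linter.unusedSectionVars false

/-!
# Third derivatives of quantities that are computed with few additions
-/

namespace Pool.Agent.Q225.Add

open Pool.Agent.H53R3

section

variable {K : Type*} [Field K] {V T : Type*}

/-- `p pᵀ` -/
def sq2 (p : V → K) : V → V → K := fun i j => p i * p j

/-- the sum of the three products of a vector and `p pᵀ` -/
def sy3 (w w' w'' p : V → K) : V → V → V → K := fun i j k =>
  w i * (p j * p k) + w' j * (p i * p k) + w'' k * (p i * p j)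

/-- the symmetric product of a matrix and a vector -/
def bb (f : V → V → K) (a : V → K) : V → V → V → K := fun i j k =>
  a i * f j k + a j * f i k + a k * f i j

/-- the span of the matrices `p pᵀ` -/
def Q2 (P : T → V → K) : Submodule K (V → V → K) :=
  Submodule.span K (Set.range fun t => sq2 (P t))

/-- the span of the products `w p p` -/
def Q3 (P : T → V → K) : Submodule K (V → V → V → K) :=
  Submodule.span K {g | ∃ (w w' w'' : V → K) (t : T), g = sy3 w w' w'' (P t)}

theorem sq2_mem {P : T → V → K} (t : T) : sq2 (P t) ∈ Q2 P := Submodule.subset_span ⟨t, rfl⟩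

theorem sy3_mem {P : T → V → K} (w w' w'' : V → K) (t : T) : sy3 w w' w'' (P t) ∈ Q3 P :=
  Submodule.subset_span ⟨w, w', w'', t, rfl⟩

/-- the product of three vectors -/
def cu3 (a b c : V → K) : V → V → V → K := fun i j k => a i * b j * c k

theorem cu3_mem {P : T → V → K} (t : T) : cu3 (P t) (P t) (P t) ∈ Q3 P := by
  have : cu3 (P t) (P t) (P t) = sy3 (P t) 0 0 (P t) := by
    funext i j k
    simp [cu3, sy3, mul_assoc]
  rw [this]
  exact sy3_mem _ _ _ t

theorem bb_mem {P : T → V → K} {f : V → V → K} (hf : f ∈ Q2 P) (a : V → K) : bb f a ∈ Q3 P := by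
  induction hf using Submodule.span_induction with
  | mem f hf =>
    obtain ⟨t, rfl⟩ := hf
    exact sy3_mem a a a t
  | zero =>
    have : bb (0 : V → V → K) a = 0 := by
      funext i j k
      simp [bb]
    rw [this]
    exact (Q3 P).zero_mem
  | add f g _ _ hf hg =>
    have : bb (f + g) a = bb f a + bb g a := by
      funext i j k
      simp only [bb, Pi.add_apply]
      ring
    rw [this]
    exact (Q3 P).add_mem hf hg
  | smul c f _ hf =>
    have : bb (c • f) a = c • bb f a := by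
      funext i j k
      simp only [bb, Pi.smul_apply, smul_eq_mul]
      ring
    rw [this]
    exact (Q3 P).smul_mem _ hf

/-- elements of `Q3` as sums with one term for each `t` -/
theorem Q3_repr [Fintype T] {P : T → V → K} {g : V → V → V → K} (hg : g ∈ Q3 P) :
    ∃ w w' w'' : T → V → K, g = ∑ t, sy3 (w t) (w' t) (w'' t) (P t) := by
  classical
  induction hg using Submodule.span_induction with
  | mem g hg =>
    obtain ⟨w, w', w'', t, rfl⟩ := hg
    refine ⟨fun t' => if t' = t then w else 0, fun t' => if t' = t then w' else 0,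
      fun t' => if t' = t then w'' else 0, ?_⟩
    rw [Finset.sum_eq_single t]
    · simp
    · intro t' _ ht'
      funext i j k
      simp [sy3, ht']
    · simp
  | zero =>
    refine ⟨fun _ => 0, fun _ => 0, fun _ => 0, ?_⟩
    symm
    refine Finset.sum_eq_zero fun t _ => ?_
    funext i j k
    simp [sy3]
  | add f g _ _ hf hg =>
    obtain ⟨w, w', w'', hw⟩ := hf
    obtain ⟨z, z', z'', hz⟩ := hg
    refine ⟨fun t => w t + z t, fun t => w' t + z' t, fun t => w'' t + z'' t, ?_⟩
    rw [hw, hz, ← Finset.sum_add_distrib]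
    refine Finset.sum_congr rfl fun t _ => ?_
    funext i j k
    simp only [sy3, Pi.add_apply]
    ring
  | smul c g _ hg =>
    obtain ⟨w, w', w'', hw⟩ := hg
    refine ⟨fun t => c • w t, fun t => c • w' t, fun t => c • w'' t, ?_⟩
    rw [hw, Finset.smul_sum]
    refine Finset.sum_congr rfl fun t _ => ?_
    funext i j k
    simp only [sy3, Pi.smul_apply, smul_eq_mul]
    ring

/-- elements of `Q2` as sums with one term for each `t` -/
theorem Q2_repr [Fintype T] {P : T → V → K} {g : V → V → K} (hg : g ∈ Q2 P) :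
    ∃ c : T → K, g = ∑ t, c t • sq2 (P t) := by
  obtain ⟨c, hc⟩ := (Submodule.mem_span_range_iff_exists_fun _).1 hg
  exact ⟨c, hc.symm⟩

variable (D : V → K → K)

def lam (f : K) : V → K := fun i => D i f / f
def lo2 (f : K) : V → V → K := fun i j => D i (D j f / f)
def lo3 (f : K) : V → V → V → K := fun i j k => D i (D j (D k f / f))
def de2 (f : K) : V → V → K := fun i j => D i (D j f)
def de3 (f : K) : V → V → V → K := fun i j k => D i (D j (D k f))

variable {D} (hD : ∀ i, IsDer (D i))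

include hD

theorem lo2_mul {f g : K} (hf : f ≠ 0) (hg : g ≠ 0) : lo2 D (f * g) = lo2 D f + lo2 D g := by
  funext i j
  simp only [lo2, Pi.add_apply, der_mul_div (hD j) hf hg, (hD i).add]

theorem lo2_div {f g : K} (hf : f ≠ 0) (hg : g ≠ 0) : lo2 D (f / g) = lo2 D f - lo2 D g := by
  funext i j
  simp only [lo2, Pi.sub_apply, der_div_div (hD j) hf hg, (hD i).sub]

theorem lo3_mul {f g : K} (hf : f ≠ 0) (hg : g ≠ 0) : lo3 D (f * g) = lo3 D f + lo3 D g := by
  funext i j k
  simp only [lo3, Pi.add_apply, der_mul_div (hD k) hf hg, (hD _).add]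

theorem lo3_div {f g : K} (hf : f ≠ 0) (hg : g ≠ 0) : lo3 D (f / g) = lo3 D f - lo3 D g := by
  funext i j k
  simp only [lo3, Pi.sub_apply, der_div_div (hD k) hf hg, (hD _).sub]

theorem lo2_zero : lo2 D 0 = 0 := by
  funext i j
  simp [lo2, (hD _).zero]

theorem lo3_zero : lo3 D 0 = 0 := by
  funext i j k
  simp [lo3, (hD _).zero]

theorem de2_add (f g : K) : de2 D (f + g) = de2 D f + de2 D g := by
  funext i j
  simp only [de2, Pi.add_apply, (hD _).add]

theorem de3_add (f g : K) : de3 D (f + g) = de3 D f + de3 D g := by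
  funext i j k
  simp only [de3, Pi.add_apply, (hD _).add]

theorem de2_zero : de2 D 0 = 0 := by
  funext i j
  simp [de2, (hD _).zero]

theorem de3_zero : de3 D 0 = 0 := by
  funext i j k
  simp [de3, (hD _).zero]

theorem der_eq (i : V) (f : K) : D i f = f * lam D f i := by
  rcases eq_or_ne f 0 with h | h
  · rw [h, (hD i).zero, zero_mul]
  · rw [lam, mul_div_cancel₀ _ h]

/-- second derivatives from the logarithmic ones -/
theorem de2_eq (f : K) : de2 D f = f • (lo2 D f + sq2 (lam D f)) := by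
  funext i j
  show D i (D j f) = f * (D i (D j f / f) + lam D f i * lam D f j)
  rw [der_eq hD j f, (hD i).mul, der_eq hD i f]
  rcases eq_or_ne f 0 with h | h
  · subst h
    simp [(hD i).zero]
  · rw [mul_div_cancel_left₀ _ h]
    ring

/-- third derivatives from the logarithmic ones -/
theorem de3_eq (f : K) : de3 D f = f • (lo3 D f + bb (lo2 D f) (lam D f) +
    cu3 (lam D f) (lam D f) (lam D f)) := by
  funext i j k
  show D i (D j (D k f)) = f * (D i (D j (D k f / f)) + bb (lo2 D f) (lam D f) i j k +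
    lam D f i * lam D f j * lam D f k)
  have h2 := congrFun (congrFun (de2_eq hD f) j) k
  simp only [de2, Pi.smul_apply, Pi.add_apply, smul_eq_mul, sq2, lo2] at h2
  rw [h2, (hD i).mul, (hD i).add, (hD i).mul, der_eq hD i f]
  have e1 : ∀ l, D i (lam D f l) = lo2 D f i l := fun l => rfl
  rw [e1, e1]
  simp only [bb, lo2]
  ring

theorem sq2_lam_mem {P : T → V → K} {f : K} (h : lam D f ∈ Set.range P) :
    sq2 (lam D f) ∈ Q2 P := by
  obtain ⟨t, ht⟩ := h
  rw [← ht]
  exact sq2_mem t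

theorem cu3_lam_mem {P : T → V → K} {f : K} (h : lam D f ∈ Set.range P) :
    cu3 (lam D f) (lam D f) (lam D f) ∈ Q3 P := by
  obtain ⟨t, ht⟩ := h
  rw [← ht]
  exact cu3_mem t

/-- the derivatives, from the logarithmic ones -/
theorem de_mem {P : T → V → K} {u : K} (hu2 : lo2 D u ∈ Q2 P) (hu3 : lo3 D u ∈ Q3 P)
    (pu : lam D u ∈ Set.range P) : de2 D u ∈ Q2 P ∧ de3 D u ∈ Q3 P := by
  rw [de2_eq hD u, de3_eq hD u]
  exact ⟨(Q2 P).smul_mem _ ((Q2 P).add_mem hu2 (sq2_lam_mem hD pu)),
    (Q3 P).smul_mem _ ((Q3 P).add_mem ((Q3 P).add_mem hu3 (bb_mem hu2 _)) (cu3_lam_mem hD pu))⟩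

/-- the logarithmic derivatives, from the derivatives -/
theorem lo_mem {P : T → V → K} {u : K} (hu2 : de2 D u ∈ Q2 P) (hu3 : de3 D u ∈ Q3 P)
    (pu : lam D u ∈ Set.range P) : lo2 D u ∈ Q2 P ∧ lo3 D u ∈ Q3 P := by
  rcases eq_or_ne u 0 with h | h
  · rw [h, lo2_zero hD, lo3_zero hD]
    exact ⟨Submodule.zero_mem _, Submodule.zero_mem _⟩
  · have h2 : lo2 D u ∈ Q2 P := by
      have e : lo2 D u = u⁻¹ • de2 D u - sq2 (lam D u) := by
        rw [de2_eq hD u, smul_smul, inv_mul_cancel₀ h, one_smul, add_sub_cancel_right]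
      rw [e]
      exact (Q2 P).sub_mem ((Q2 P).smul_mem _ hu2) (sq2_lam_mem hD pu)
    refine ⟨h2, ?_⟩
    have e : lo3 D u = u⁻¹ • de3 D u - bb (lo2 D u) (lam D u) -
        cu3 (lam D u) (lam D u) (lam D u) := by
      rw [de3_eq hD u, smul_smul, inv_mul_cancel₀ h, one_smul]
      abel
    rw [e]
    exact (Q3 P).sub_mem ((Q3 P).sub_mem ((Q3 P).smul_mem _ hu3) (bb_mem h2 _))
      (cu3_lam_mem hD pu)

/-- the logarithmic derivatives of a sum -/
theorem lo_add_mem {P : T → V → K} {u v : K} (hu : lo2 D u ∈ Q2 P ∧ lo3 D u ∈ Q3 P)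
    (hv : lo2 D v ∈ Q2 P ∧ lo3 D v ∈ Q3 P)
    (pu : lam D u ∈ Set.range P) (pv : lam D v ∈ Set.range P)
    (ps : lam D (u + v) ∈ Set.range P) :
    lo2 D (u + v) ∈ Q2 P ∧ lo3 D (u + v) ∈ Q3 P := by
  have h1 := de_mem hD hu.1 hu.2 pu
  have h2 := de_mem hD hv.1 hv.2 pv
  refine lo_mem hD ?_ ?_ ps
  · rw [de2_add hD]
    exact (Q2 P).add_mem h1.1 h2.1
  · rw [de3_add hD]
    exact (Q3 P).add_mem h1.2 h2.2

theorem lo_mul_mem {P : T → V → K} {u v : K} (hu : lo2 D u ∈ Q2 P ∧ lo3 D u ∈ Q3 P)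
    (hv : lo2 D v ∈ Q2 P ∧ lo3 D v ∈ Q3 P) : lo2 D (u * v) ∈ Q2 P ∧ lo3 D (u * v) ∈ Q3 P := by
  rcases eq_or_ne u 0 with h | h
  · rw [h, zero_mul, lo2_zero hD, lo3_zero hD]
    exact ⟨Submodule.zero_mem _, Submodule.zero_mem _⟩
  rcases eq_or_ne v 0 with h' | h'
  · rw [h', mul_zero, lo2_zero hD, lo3_zero hD]
    exact ⟨Submodule.zero_mem _, Submodule.zero_mem _⟩
  rw [lo2_mul hD h h', lo3_mul hD h h']
  exact ⟨Submodule.add_mem _ hu.1 hv.1, Submodule.add_mem _ hu.2 hv.2⟩

theorem lo_div_mem {P : T → V → K} {u v : K} (hu : lo2 D u ∈ Q2 P ∧ lo3 D u ∈ Q3 P)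
    (hv : lo2 D v ∈ Q2 P ∧ lo3 D v ∈ Q3 P) : lo2 D (u / v) ∈ Q2 P ∧ lo3 D (u / v) ∈ Q3 P := by
  rcases eq_or_ne u 0 with h | h
  · rw [h, zero_div, lo2_zero hD, lo3_zero hD]
    exact ⟨Submodule.zero_mem _, Submodule.zero_mem _⟩
  rcases eq_or_ne v 0 with h' | h'
  · rw [h', div_zero, lo2_zero hD, lo3_zero hD]
    exact ⟨Submodule.zero_mem _, Submodule.zero_mem _⟩
  rw [lo2_div hD h h', lo3_div hD h h']
  exact ⟨Submodule.sub_mem _ hu.1 hv.1, Submodule.sub_mem _ hu.2 hv.2⟩

end

end Pool.Agent.Q225.Add
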