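import Pool.Agent.Q225.Add.ThreeRun

set_option autoImplicit false
set_option linter.unusedSectionVars false

/-!
# The rank of third derivatives, and decompositions of second derivatives
-/

namespace Pool.Agent.Q225.Add

open MvPolynomial Pool.Agent.W956.KF Pool.Agent.H53R3

section

variable {K V T T' : Type} [Field K]

theorem Q2_mono {P : T → V → K} {P' : T' → V → K} (h : Set.range P ⊆ Set.range P') :
    Q2 P ≤ Q2 P' := by
  refine Submodule.span_le.2 ?_
  rintro _ ⟨t, rfl⟩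
  obtain ⟨t', ht'⟩ := h ⟨t, rfl⟩
  show sq2 (P t) ∈ Q2 P'
  rw [← ht']
  exact sq2_mem t'

theorem Q3_mono {P : T → V → K} {P' : T' → V → K} (h : Set.range P ⊆ Set.range P') :
    Q3 P ≤ Q3 P' := by
  refine Submodule.span_le.2 ?_
  rintro _ ⟨w, w', w'', t, rfl⟩
  obtain ⟨t', ht'⟩ := h ⟨t, rfl⟩
  show sy3 w w' w'' (P t) ∈ Q3 P'
  rw [← ht']
  exact sy3_mem w w' w'' t'

/-- adding one vector -/
def ext1 (P : T ⊕ V → V → K) (p : V → K) : (T ⊕ Unit) ⊕ V → V → K := fun t => match t with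
  | .inl (.inl t) => P (.inl t)
  | .inl (.inr _) => p
  | .inr x => P (.inr x)

theorem range_ext1 (P : T ⊕ V → V → K) (p : V → K) : Set.range P ⊆ Set.range (ext1 P p) := by
  rintro _ ⟨t | x, rfl⟩
  · exact ⟨.inl (.inl t), rfl⟩
  · exact ⟨.inr x, rfl⟩

theorem mem_range_ext1 (P : T ⊕ V → V → K) (p : V → K) : p ∈ Set.range (ext1 P p) :=
  ⟨.inl (.inr ()), rfl⟩

end

section

variable {F : Type} [Field F] {V : Type} [DecidableEq V] [Fintype V] {D : V → Rt F V → Rt F V}
  (hD : ∀ x, IsDer (D x)) (hc : ∀ x (c : F), D x (algebraMap F _ c) = 0)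
  (hv : ∀ x j, D x (gz F V j) = if j = x then 1 else 0)
  {I J L : Type} {α : I → V} {β : J → V} {γ : L → V}
  (h1 : ∀ i j, α i ≠ β j) (h2 : ∀ i l, α i ≠ γ l) (h3 : ∀ j l, β j ≠ γ l)

include hD hc hv h1 h2 h3

theorem tensor_compP {f : Rt F V} {s : ℕ} (h : CompP F V {f} s) :
    TensorRankLE (fun i j l => D (α i) (D (β j) (D (γ l) f / f))) (9 * s) := by
  obtain ⟨P, hP, hZ⟩ := compP_mem hD hc hv h
  have := rank_of_mem3 hP (hZ f rfl).2 α β γ h1 h2 h3
  have e : 3 * Fintype.card (Fin s × Fin 3) = 9 * s := by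
    simp only [Fintype.card_prod, Fintype.card_fin]; ring
  rw [e] at this
  exact this

theorem tensor_compP' {f : Rt F V} {s : ℕ} (h : CompP F V {f} s) :
    TensorRankLE (fun i j l => D (α i) (D (β j) (D (γ l) f))) (9 * s + 3) := by
  obtain ⟨P, hP, hZ⟩ := compP_mem hD hc hv h
  have hr := range_ext1 P (lam D f)
  have hm := de_mem hD (P := ext1 P (lam D f)) (Q2_mono hr (hZ f rfl).1) (Q3_mono hr (hZ f rfl).2)
    (mem_range_ext1 _ _)
  have := rank_of_mem3 (P := ext1 P (lam D f)) (fun x y h => hP x y h) hm.2 α β γ h1 h2 h3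
  have e : 3 * Fintype.card ((Fin s × Fin 3) ⊕ Unit) = 9 * s + 3 := by
    simp only [Fintype.card_sum, Fintype.card_prod, Fintype.card_fin, Fintype.card_unit]; ring
  rw [e] at this
  exact this

theorem tensor_compU {f : Rt F V} {s : ℕ} (h : CompU F V {f} s) :
    TensorRankLE (fun i j l => D (α i) (D (β j) (D (γ l) f))) (3 * s) := by
  obtain ⟨g, hg⟩ := compU_mem hD hc hv h
  let P : Fin s ⊕ V → V → Rt F V := fun t => match t with
    | .inl t => fun i => D i (g t)
    | .inr x => fun i => D i (gz F V x)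
  have hm := hg _ P (fun t => ⟨.inl t, rfl⟩) (fun x => ⟨.inr x, rfl⟩) f rfl
  have := rank_of_mem3 (P := P) (fun x y h => by
    show D y (gz F V x) = 0
    rw [hv, if_neg (Ne.symm h)]) hm.2 α β γ h1 h2 h3
  rw [Fintype.card_fin] at this
  exact this

theorem tensor_compU' {f : Rt F V} {s : ℕ} (h : CompU F V {f} s) :
    TensorRankLE (fun i j l => D (α i) (D (β j) (D (γ l) f / f))) (3 * s + 3) := by
  obtain ⟨g, hg⟩ := compU_mem hD hc hv h
  let P : (Fin s ⊕ Unit) ⊕ V → V → Rt F V := fun t => match t with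
    | .inl (.inl t) => fun i => D i (g t)
    | .inl (.inr _) => lam D f
    | .inr x => fun i => D i (gz F V x)
  have hm := hg _ P (fun t => ⟨.inl (.inl t), rfl⟩) (fun x => ⟨.inr x, rfl⟩) f rfl
  have hm' := lo_mem hD hm.1 hm.2 ⟨.inl (.inr ()), rfl⟩
  have := rank_of_mem3 (P := P) (fun x y h => by
    show D y (gz F V x) = 0
    rw [hv, if_neg (Ne.symm h)]) hm'.2 α β γ h1 h2 h3
  have e : 3 * Fintype.card (Fin s ⊕ Unit) = 3 * s + 3 := by
    simp only [Fintype.card_sum, Fintype.card_fin, Fintype.card_unit]; ring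
  rw [e] at this
  exact this

end

section

variable {F : Type} [Field F] {V : Type} [DecidableEq V] [Fintype V] {D : V → Rt F V → Rt F V}
  (hD : ∀ x, IsDer (D x)) (hc : ∀ x (c : F), D x (algebraMap F _ c) = 0)
  (hv : ∀ x j, D x (gz F V j) = if j = x then 1 else 0)

include hD hc hv

/-- second logarithmic derivatives, several outputs -/
theorem two_compP {Z : Set (Rt F V)} {s : ℕ} (h : CompP F V Z s) :
    ∃ P : Fin s × Fin 3 → V → Rt F V, ∀ z ∈ Z, ∃ c : Fin s × Fin 3 → Rt F V,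
      ∀ v w, v ≠ w → D v (D w z / z) = ∑ t, c t * P t v * P t w := by
  obtain ⟨P, hP, hZ⟩ := compP_mem hD hc hv h
  exact ⟨fun t => P (.inl t), fun z hz => repr_of_mem2 hP (hZ z hz).1⟩

/-- second derivatives, several outputs -/
theorem two_compU {Z : Set (Rt F V)} {s : ℕ} (h : CompU F V Z s) :
    ∃ P : Fin s → V → Rt F V, ∀ z ∈ Z, ∃ c : Fin s → Rt F V,
      ∀ v w, v ≠ w → D v (D w z) = ∑ t, c t * P t v * P t w := by
  obtain ⟨g, hg⟩ := compU_mem hD hc hv h
  let P : Fin s ⊕ V → V → Rt F V := fun t => match t with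
    | .inl t => fun i => D i (g t)
    | .inr x => fun i => D i (gz F V x)
  refine ⟨fun t => P (.inl t), fun z hz => ?_⟩
  have hm := hg _ P (fun t => ⟨.inl t, rfl⟩) (fun x => ⟨.inr x, rfl⟩) z hz
  exact repr_of_mem2 (P := P) (fun x y h => by
    show D y (gz F V x) = 0
    rw [hv, if_neg (Ne.symm h)]) hm.1

end

end Pool.Agent.Q225.Add
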