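import Pool.Agent.Q225.Add.Three
import Pool.Agent.Q225.Add.Rank
import Pool.Agent.Q225.Add.InvDefs

set_option autoImplicit false
set_option linter.unusedSectionVars false

/-!
# Computations with few additions have third derivatives of small rank
-/

namespace Pool.Agent.Q225.Add

open MvPolynomial Pool.Agent.W956.KF Pool.Agent.H53R3

theorem tensorRankLE_of_fintype {K I J L T : Type} [Field K] [Fintype T] {f : I → J → L → K}
    {r : ℕ} (x : T → I → K) (y : T → J → K) (z : T → L → K)
    (h : ∀ i j l, f i j l = ∑ t, x t i * y t j * z t l) (hr : Fintype.card T = r) :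
    TensorRankLE f r := by
  subst hr
  let e : Fin (Fintype.card T) ≃ T := (Fintype.equivFin T).symm
  refine ⟨fun t => x (e t), fun t => y (e t), fun t => z (e t), fun i j l => ?_⟩
  rw [h]
  exact (Equiv.sum_comp e (fun t => x t i * y t j * z t l)).symm

section

variable {K V T : Type} [Field K] [Fintype V] [Fintype T] {I J L : Type}

/-- restriction to disjoint groups of variables -/
theorem rank_of_mem3 {P : T ⊕ V → V → K} (hP : ∀ x y, y ≠ x → P (.inr x) y = 0)
    {g : V → V → V → K} (hg : g ∈ Q3 P) (α : I → V) (β : J → V) (γ : L → V)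
    (h1 : ∀ i j, α i ≠ β j) (h2 : ∀ i l, α i ≠ γ l) (h3 : ∀ j l, β j ≠ γ l) :
    TensorRankLE (fun i j l => g (α i) (β j) (γ l)) (3 * Fintype.card T) := by
  obtain ⟨w, w', w'', rfl⟩ := Q3_repr hg
  refine tensorRankLE_of_fintype (T := T × Fin 3)
    (fun t i => if t.2 = 0 then w (.inl t.1) (α i) else P (.inl t.1) (α i))
    (fun t j => if t.2 = 1 then w' (.inl t.1) (β j) else P (.inl t.1) (β j))
    (fun t l => if t.2 = 2 then w'' (.inl t.1) (γ l) else P (.inl t.1) (γ l)) ?_ ?_
  · intro i j l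
    simp only [Finset.sum_apply, Fintype.sum_sum_type, Fintype.sum_prod_type, sy3,
      Fin.sum_univ_three]
    have h0 : ∑ x : V, (w (.inr x) (α i) * (P (.inr x) (β j) * P (.inr x) (γ l)) +
        w' (.inr x) (β j) * (P (.inr x) (α i) * P (.inr x) (γ l)) +
        w'' (.inr x) (γ l) * (P (.inr x) (α i) * P (.inr x) (β j))) = 0 := by
      refine Finset.sum_eq_zero fun x _ => ?_
      have a1 : P (.inr x) (β j) * P (.inr x) (γ l) = 0 := by
        by_cases hx : β j = x
        · rw [hP x (γ l) (fun h => h3 j l (hx.trans h.symm)), mul_zero]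
        · rw [hP x _ hx, zero_mul]
      have a2 : P (.inr x) (α i) * P (.inr x) (γ l) = 0 := by
        by_cases hx : α i = x
        · rw [hP x (γ l) (fun h => h2 i l (hx.trans h.symm)), mul_zero]
        · rw [hP x _ hx, zero_mul]
      have a3 : P (.inr x) (α i) * P (.inr x) (β j) = 0 := by
        by_cases hx : α i = x
        · rw [hP x (β j) (fun h => h1 i j (hx.trans h.symm)), mul_zero]
        · rw [hP x _ hx, zero_mul]
      rw [a1, a2, a3]
      ring
    rw [h0, add_zero]
    refine Finset.sum_congr rfl fun t _ => ?_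
    simp
    ring
  · simp [mul_comm]

/-- restriction of second derivatives to disjoint groups of variables -/
theorem repr_of_mem2 {P : T ⊕ V → V → K} (hP : ∀ x y, y ≠ x → P (.inr x) y = 0)
    {g : V → V → K} (hg : g ∈ Q2 P) : ∃ c : T → K, ∀ v w, v ≠ w →
      g v w = ∑ t, c t * P (.inl t) v * P (.inl t) w := by
  obtain ⟨c, rfl⟩ := Q2_repr hg
  refine ⟨fun t => c (.inl t), fun v w hvw => ?_⟩
  simp only [Finset.sum_apply, Fintype.sum_sum_type, Pi.smul_apply, sq2, smul_eq_mul]
  have h0 : ∑ x : V, c (.inr x) * (P (.inr x) v * P (.inr x) w) = 0 := by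
    refine Finset.sum_eq_zero fun x _ => ?_
    by_cases hx : v = x
    · rw [hP x w (fun h => hvw (hx.trans h.symm))]
      ring
    · rw [hP x v hx]
      ring
  rw [h0, add_zero]
  exact Finset.sum_congr rfl fun t _ => by ring

end

section

variable {F : Type} [Field F] {V : Type} [DecidableEq V] {D : V → Rt F V → Rt F V}

theorem exists_dersV (F : Type) [Field F] (V : Type) [DecidableEq V] :
    ∃ D : V → Rt F V → Rt F V, (∀ x, IsDer (D x)) ∧ (∀ x (c : F), D x (algebraMap F _ c) = 0) ∧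
      ∀ x j, D x (gz F V j) = if j = x then 1 else 0 := by
  choose D h1 h2 h3 using fun x : V => exists_der F V x
  exact ⟨D, h1, h2, h3⟩

variable (hD : ∀ x, IsDer (D x)) (hc : ∀ x (c : F), D x (algebraMap F _ c) = 0)
  (hv : ∀ x j, D x (gz F V j) = if j = x then 1 else 0)

include hD hc hv

theorem gz_ne_zero' (x : V) : gz F V x ≠ 0 := by
  intro h
  have := hv x x
  rw [h, (hD x).zero, if_pos rfl] at this
  exact zero_ne_one this

theorem lam_gz (x y : V) (h : y ≠ x) : lam D (gz F V x) y = 0 := by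
  simp [lam, hv, Ne.symm h]

/-- constants and variables -/
theorem given_mem {T : Type} {P : T ⊕ V → V → Rt F V} (hP : ∀ x, P (.inr x) = lam D (gz F V x))
    {z : Rt F V} (hz : z ∈ Given F V) : lo2 D z ∈ Q2 P ∧ lo3 D z ∈ Q3 P := by
  rcases hz with ⟨c, rfl⟩ | ⟨x, rfl⟩
  · have e1 : lo2 D (algebraMap F (Rt F V) c) = 0 := by
      funext i j
      simp [lo2, hc, (hD _).zero]
    have e2 : lo3 D (algebraMap F (Rt F V) c) = 0 := by
      funext i j k
      simp [lo3, hc, (hD _).zero]
    rw [e1, e2]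
    exact ⟨Submodule.zero_mem _, Submodule.zero_mem _⟩
  · have hx : gz F V x ≠ 0 := gz_ne_zero' hD hc hv x
    have hd : ∀ k, D k (gz F V x) = if x = k then 1 else 0 := fun k => hv k x
    have hdd : ∀ j k, D j (D k (gz F V x)) = 0 := by
      intro j k
      rw [hd]
      split_ifs
      · exact (hD j).one
      · exact (hD j).zero
    have e0 : de2 D (gz F V x) = 0 := by
      funext j k
      exact hdd j k
    have e00 : de3 D (gz F V x) = 0 := by
      funext i j k
      show D i (D j (D k (gz F V x))) = 0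
      rw [hdd, (hD i).zero]
    refine lo_mem hD ?_ ?_ ⟨.inr x, hP x⟩
    · rw [e0]; exact Submodule.zero_mem _
    · rw [e00]; exact Submodule.zero_mem _

/-- products and quotients -/
theorem mon_mem {T : Type} {P : T ⊕ V → V → Rt F V} (hP : ∀ x, P (.inr x) = lam D (gz F V x))
    {S : Set (Rt F V)} (hS : ∀ z ∈ S, lo2 D z ∈ Q2 P ∧ lo3 D z ∈ Q3 P) {z : Rt F V}
    (hz : Mon (Given F V ∪ S) z) : lo2 D z ∈ Q2 P ∧ lo3 D z ∈ Q3 P := by
  induction hz with
  | of x hx =>
    rcases hx with hx | hx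
    · exact given_mem hD hc hv hP hx
    · exact hS x hx
  | mul x y _ _ ihx ihy => exact lo_mul_mem hD ihx ihy
  | div x y _ _ ihx ihy => exact lo_div_mem hD ihx ihy

/-- **Computations with free multiplications and divisions.** -/
theorem compP_mem {Z : Set (Rt F V)} {s : ℕ} (h : CompP F V Z s) :
    ∃ P : (Fin s × Fin 3) ⊕ V → V → Rt F V, (∀ x y, y ≠ x → P (.inr x) y = 0) ∧
      ∀ z ∈ Z, lo2 D z ∈ Q2 P ∧ lo3 D z ∈ Q3 P := by
  obtain ⟨h, hrun, hout⟩ := h
  choose u v hu hv' huv using hrun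
  set g : (Fin s × Fin 3) ⊕ V → Rt F V := fun t => match t with
    | .inl (t, 0) => u t
    | .inl (t, 1) => v t
    | .inl (t, 2) => h t
    | .inr x => gz F V x with hg
  set P : (Fin s × Fin 3) ⊕ V → V → Rt F V := fun t => lam D (g t) with hPdef
  have hP : ∀ x, P (.inr x) = lam D (gz F V x) := fun x => rfl
  have hall : ∀ t : Fin s, lo2 D (h t) ∈ Q2 P ∧ lo3 D (h t) ∈ Q3 P := by
    intro t
    obtain ⟨t, ht⟩ := t
    induction t using Nat.strong_induction_on with
    | _ t ih =>
      have hS : ∀ z ∈ {z | ∃ t' < (⟨t, ht⟩ : Fin s), z = h t'},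
          lo2 D z ∈ Q2 P ∧ lo3 D z ∈ Q3 P := by
        rintro z ⟨t', ht', rfl⟩
        exact ih t'.1 ht' t'.2
      rw [huv]
      refine lo_add_mem hD (mon_mem hD hc hv hP hS (hu _)) (mon_mem hD hc hv hP hS (hv' _))
        ?_ ?_ ?_
      · exact ⟨.inl (⟨t, ht⟩, 0), rfl⟩
      · exact ⟨.inl (⟨t, ht⟩, 1), rfl⟩
      · rw [← huv]
        exact ⟨.inl (⟨t, ht⟩, 2), rfl⟩
  refine ⟨P, fun x y hxy => lam_gz hD hc hv x y hxy, fun z hz => ?_⟩
  refine mon_mem hD hc hv hP (S := Set.range h) ?_ (hout z hz)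
  rintro _ ⟨t, rfl⟩
  exact hall t

/-- rational functions of one variable -/
theorem una_mem {T : Type} {P : T → V → Rt F V} {z : Rt F V}
    (hz2 : de2 D z ∈ Q2 P) (hz3 : de3 D z ∈ Q3 P)
    (pz : (fun i => D i z) = 0 ∨ (fun i => D i z) ∈ Set.range P) (p q : Polynomial F) :
    de2 D (Polynomial.aeval z p / Polynomial.aeval z q) ∈ Q2 P ∧
      de3 D (Polynomial.aeval z p / Polynomial.aeval z q) ∈ Q3 P := by
  obtain ⟨p1, q1, h1⟩ := una_der z p q
  obtain ⟨p2, q2, h2⟩ := una_der z p1 q1
  obtain ⟨p3, q3, h3⟩ := una_der z p2 q2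
  have e2 : de2 D (Polynomial.aeval z p / Polynomial.aeval z q) =
      (Polynomial.aeval z p1 / Polynomial.aeval z q1) • de2 D z +
      (Polynomial.aeval z p2 / Polynomial.aeval z q2) • sq2 (fun i => D i z) := by
    funext j k
    simp only [de2, sq2, Pi.add_apply, Pi.smul_apply, smul_eq_mul]
    rw [h1 _ (hD k) (hc _), (hD j).mul, h2 _ (hD j) (hc _)]
    ring
  have e3 : de3 D (Polynomial.aeval z p / Polynomial.aeval z q) =
      (Polynomial.aeval z p1 / Polynomial.aeval z q1) • de3 D z +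
      (Polynomial.aeval z p2 / Polynomial.aeval z q2) • bb (de2 D z) (fun i => D i z) +
      (Polynomial.aeval z p3 / Polynomial.aeval z q3) •
        cu3 (fun i => D i z) (fun i => D i z) (fun i => D i z) := by
    funext i j k
    simp only [de3, de2, bb, cu3, Pi.add_apply, Pi.smul_apply, smul_eq_mul]
    rw [h1 _ (hD k) (hc _), (hD j).mul, h2 _ (hD j) (hc _), (hD i).add, (hD i).mul, (hD i).mul,
      (hD i).mul, h2 _ (hD i) (hc _), h3 _ (hD i) (hc _)]
    ring
  have m2 : sq2 (fun i => D i z) ∈ Q2 P := by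
    rcases pz with pz | ⟨t, ht⟩
    · rw [pz]
      have : sq2 (0 : V → Rt F V) = 0 := by
        funext i j
        simp [sq2]
      rw [this]
      exact Submodule.zero_mem _
    · rw [← ht]
      exact sq2_mem t
  have m3 : cu3 (fun i => D i z) (fun i => D i z) (fun i => D i z) ∈ Q3 P := by
    rcases pz with pz | ⟨t, ht⟩
    · rw [pz]
      have : cu3 (0 : V → Rt F V) 0 0 = 0 := by
        funext i j k
        simp [cu3]
      rw [this]
      exact Submodule.zero_mem _
    · rw [← ht]
      exact cu3_mem t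
  rw [e2, e3]
  exact ⟨(Q2 P).add_mem ((Q2 P).smul_mem _ hz2) ((Q2 P).smul_mem _ m2),
    (Q3 P).add_mem ((Q3 P).add_mem ((Q3 P).smul_mem _ hz3) ((Q3 P).smul_mem _ (bb_mem hz2 _)))
      ((Q3 P).smul_mem _ m3)⟩

/-- **Computations with free functions of one variable.** -/
theorem compU_mem {Z : Set (Rt F V)} {s : ℕ} (h : CompU F V Z s) :
    ∃ g : Fin s → Rt F V, ∀ (T : Type) (P : T → V → Rt F V),
      (∀ t, (fun i => D i (g t)) ∈ Set.range P) → (∀ x, (fun i => D i (gz F V x)) ∈ Set.range P) →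
      ∀ z ∈ Z, de2 D z ∈ Q2 P ∧ de3 D z ∈ Q3 P := by
  obtain ⟨h, hrun, hout⟩ := h
  choose u v hu hv' huv using hrun
  refine ⟨h, fun T P hPh hPx => ?_⟩
  have huna : ∀ S : Set (Rt F V), (∀ z ∈ S, (de2 D z ∈ Q2 P ∧ de3 D z ∈ Q3 P) ∧
      (fun i => D i z) ∈ Set.range P) → ∀ z ∈ Una F (Given F V ∪ S),
      de2 D z ∈ Q2 P ∧ de3 D z ∈ Q3 P := by
    rintro S hS y ⟨z, hz, p, q, rfl⟩
    rcases hz with (⟨c, rfl⟩ | ⟨x, rfl⟩) | hz
    · have e0 : (fun i => D i (algebraMap F (Rt F V) c)) = 0 := by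
        funext i
        exact hc i c
      refine una_mem hD hc hv ?_ ?_ (Or.inl e0) p q
      · have : de2 D (algebraMap F (Rt F V) c) = 0 := by
          funext i j
          simp [de2, hc, (hD _).zero]
        rw [this]
        exact Submodule.zero_mem _
      · have : de3 D (algebraMap F (Rt F V) c) = 0 := by
          funext i j k
          simp [de3, hc, (hD _).zero]
        rw [this]
        exact Submodule.zero_mem _
    · have hdd : ∀ j k, D j (D k (gz F V x)) = 0 := by
        intro j k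
        rw [hv]
        split_ifs
        · exact (hD j).one
        · exact (hD j).zero
      refine una_mem hD hc hv ?_ ?_ (Or.inr (hPx x)) p q
      · have : de2 D (gz F V x) = 0 := by
          funext i j
          exact hdd i j
        rw [this]
        exact Submodule.zero_mem _
      · have : de3 D (gz F V x) = 0 := by
          funext i j k
          show D i (D j (D k (gz F V x))) = 0
          rw [hdd, (hD i).zero]
        rw [this]
        exact Submodule.zero_mem _
    · exact una_mem hD hc hv (hS z hz).1.1 (hS z hz).1.2 (Or.inr (hS z hz).2) p q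
  have hall : ∀ t : Fin s, de2 D (h t) ∈ Q2 P ∧ de3 D (h t) ∈ Q3 P := by
    intro t
    obtain ⟨t, ht⟩ := t
    induction t using Nat.strong_induction_on with
    | _ t ih =>
      have hS : ∀ z ∈ {z | ∃ t' < (⟨t, ht⟩ : Fin s), z = h t'},
          (de2 D z ∈ Q2 P ∧ de3 D z ∈ Q3 P) ∧ (fun i => D i z) ∈ Set.range P := by
        rintro z ⟨t', ht', rfl⟩
        exact ⟨ih t'.1 ht' t'.2, hPh t'⟩
      have h1 := huna _ hS _ (hu ⟨t, ht⟩)
      have h2 := huna _ hS _ (hv' ⟨t, ht⟩)
      rw [huv, de2_add hD, de3_add hD]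
      exact ⟨(Q2 P).add_mem h1.1 h2.1, (Q3 P).add_mem h1.2 h2.2⟩
  intro z hz
  refine huna (Set.range h) ?_ z (hout z hz)
  rintro _ ⟨t, rfl⟩
  exact ⟨hall t, hPh t⟩

end

end Pool.Agent.Q225.Add
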